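import Pool.Agent.H23.LC.Targets
import Pool.Agent.H87.HK.YC

/-!
# (TF) from thin to fat regions
-/

set_option autoImplicit false

open NumberField NumberField.InfinitePlace NumberField.Units
  NumberField.Units.dirichletUnitTheorem MeasureTheory Set Filter Complex
open scoped nonZeroDivisors ENNReal

namespace Pool.Agent.H61.GLB

open Pool.Agent.H25.HK Pool.Agent.H23.LB Pool.Agent.H23.LC
open Pool.Agent.H28.RC (Rep ft idl)

/-- translations of a fundamental domain -/
theorem gen_trans {E : Type*} [NormedAddCommGroup E] [NormedSpace ℝ E] [MeasurableSpace E]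
    [BorelSpace E] [FiniteDimensional ℝ E] (μ : Measure E) [μ.IsAddHaarMeasure]
    {κ : Type*} [Finite κ]
    (b : Module.Basis κ ℝ E) (L : Submodule ℤ E) (hL : Submodule.span ℤ (Set.range b) = L)
    (g : E → ℝ≥0∞) (hg : ∀ z, ∀ l ∈ L, g (z + l) = g z) (w : E) :
    ∫⁻ z in ZSpan.fundamentalDomain b, g (z + w) ∂μ =
      ∫⁻ z in ZSpan.fundamentalDomain b, g z ∂μ := by
  subst hL
  set F := ZSpan.fundamentalDomain b with hF
  have hd : IsAddFundamentalDomain (Submodule.span ℤ (Set.range b)) F μ :=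
    ZSpan.isAddFundamentalDomain b μ
  have : Countable (Submodule.span ℤ (Set.range b)) := inferInstance
  have : VAddInvariantMeasure (Submodule.span ℤ (Set.range b)) E μ :=
    inferInstanceAs (VAddInvariantMeasure (Submodule.span ℤ (Set.range b)).toAddSubgroup E μ)
  have htr : IsAddFundamentalDomain (Submodule.span ℤ (Set.range b))
      ((fun z => z + -w) ⁻¹' F) μ := by
    refine hd.preimage_of_equiv (f := fun z => z + -w)
      (measurePreserving_add_right μ (-w)).quasiMeasurePreserving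
      (e := id) Function.bijective_id ?_
    intro l z
    simp [Submodule.vadd_def, vadd_eq_add, add_assoc]
  have h1 : ∫⁻ z in F, g (z + w) ∂μ = ∫⁻ z in (fun z => z + -w) ⁻¹' F, g z ∂μ := by
    have := (measurePreserving_add_right μ (-w)).setLIntegral_comp_preimage_emb
      (MeasurableEquiv.addRight (-w)).measurableEmbedding (fun z => g (z + w)) F
    rw [← this]
    refine lintegral_congr fun z => ?_
    rw [neg_add_cancel_right]
  rw [h1]
  refine (htr.setLIntegral_eq hd g ?_)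
  intro l z
  rw [Submodule.vadd_def, vadd_eq_add, add_comm]
  exact hg z l l.2

section

variable (K : Type) [Field K] [NumberField K]

open scoped Classical in
theorem Fd_trans (g : logSpace K → ℝ≥0∞) (hg : ∀ z, ∀ l ∈ unitLattice K, g (z + l) = g z)
    (w : logSpace K) : ∫⁻ z in Fd K, g (z + w) = ∫⁻ z in Fd K, g z :=
  gen_trans (volume : Measure (logSpace K))
    ((basisUnitLattice K).ofZLatticeBasis ℝ (unitLattice K)) (unitLattice K)
    ((basisUnitLattice K).ofZLatticeBasis_span ℝ) g hg w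

theorem countable_K : Countable K :=
  (Module.finBasis ℚ K).equivFun.toEquiv.countable_iff.2 inferInstance

open scoped Classical in
theorem yc_add (τ τ' : ℝ) (z z' : logSpace K) (v : InfinitePlace K) :
    yc K (τ + τ') (z + z') v = yc K τ z v + yc K τ' z' v := by
  unfold yc
  by_cases h : v = w₀
  · rw [dif_pos h, dif_pos h, dif_pos h]
    simp only [Pi.add_apply, Finset.sum_add_distrib]
    ring
  · rw [dif_neg h, dif_neg h, dif_neg h]
    simp only [Pi.add_apply]
    ring

theorem yM_add (M : FI K) (τ τ' : ℝ) (z z' : logSpace K) (v : InfinitePlace K) :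
    yM K M (τ + τ') (z + z') v = yM K M τ z v + yc K τ' z' v := by
  unfold yM
  rw [← yc_add]
  congr 1
  ring

theorem yM_cont (M : FI K) : Continuous (fun p : logSpace K × ℝ => yM K M p.2 p.1) := by
  have h := (Pool.Agent.H87.HK.yc_main K).2.2.2.2.1
  have h2 : Continuous (fun p : logSpace K × ℝ =>
      ((p.2 - Real.log (FractionalIdeal.absNorm M : ℝ), p.1) : ℝ × logSpace K)) := by
    fun_prop
  exact h.comp h2

theorem yc_cont : Continuous (fun p : logSpace K × ℝ => yc K p.2 p.1) := by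
  have h := (Pool.Agent.H87.HK.yc_main K).2.2.2.2.1
  have h2 : Continuous (fun p : logSpace K × ℝ => ((p.2, p.1) : ℝ × logSpace K)) := by
    fun_prop
  exact h.comp h2

/-- the region of one point -/
def E (M : FI K) (x : K) (δ : ℝ) : Set (logSpace K × ℝ) := {p | Bt δ x (yM K M p.2 p.1)}

theorem E_meas (M : FI K) (x : K) (δ : ℝ) : MeasurableSet (E K M x δ) := by
  have h : E K M x δ = ⋂ v : InfinitePlace K,
      {p : logSpace K × ℝ | |Real.log (v x) + yM K M p.2 p.1 v / 2| ≤ δ} := by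
    ext p
    simp only [E, Bt, mem_ofPred_eq, mem_iInter]
  rw [h]
  refine MeasurableSet.iInter fun v => IsClosed.measurableSet ?_
  have h1 := (continuous_apply v).comp (yM_cont K M)
  exact isClosed_le (continuous_const.add (h1.div_const 2)).abs continuous_const

theorem NB_meas (L M : FI K) (δ : ℝ) :
    Measurable (fun p : logSpace K × ℝ => NB δ L (yM K M p.2 p.1)) := by
  classical
  have := countable_K K
  unfold NB
  refine Measurable.tsum fun h => ?_
  refine Measurable.ite ?_ measurable_const measurable_const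
  have h1 : {a : logSpace K × ℝ | ∀ v : InfinitePlace K,
      v h.1 * Real.exp (yM K M a.2 a.1 v / 2) ≤ δ} = ⋂ v : InfinitePlace K,
      {a : logSpace K × ℝ | v h.1 * Real.exp (yM K M a.2 a.1 v / 2) ≤ δ} := by
    ext p
    simp only [mem_ofPred_eq, mem_iInter]
  rw [h1]
  refine MeasurableSet.iInter fun v => IsClosed.measurableSet ?_
  have h2 := (continuous_apply v).comp (yM_cont K M)
  exact isClosed_le (continuous_const.mul (Real.continuous_exp.comp (h2.div_const 2)))
    continuous_const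

/-- the small cube -/
def Wc (δ : ℝ) : Set (logSpace K × ℝ) := {p | ∀ v : InfinitePlace K, |yc K p.2 p.1 v| ≤ δ}

theorem Wc_meas (δ : ℝ) : MeasurableSet (Wc K δ) := by
  have h : Wc K δ = ⋂ v : InfinitePlace K,
      {p : logSpace K × ℝ | |yc K p.2 p.1 v| ≤ δ} := by
    ext p
    simp only [Wc, mem_ofPred_eq, mem_iInter]
  rw [h]
  refine MeasurableSet.iInter fun v => IsClosed.measurableSet ?_
  have h1 := (continuous_apply v).comp (yc_cont K)
  exact isClosed_le h1.abs continuous_const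

theorem NB_mono (L M : FI K) (δ : ℝ) (hδ : 0 < δ) (p w : logSpace K × ℝ) (hw : w ∈ Wc K 1) :
    NB δ L (yM K M p.2 p.1) ≤ NB (2 * δ) L (yM K M (p.2 + w.2) (p.1 + w.1)) := by
  classical
  unfold NB
  refine ENNReal.tsum_le_tsum fun h => ?_
  by_cases h1 : ∀ v : InfinitePlace K, v h.1 * Real.exp (yM K M p.2 p.1 v / 2) ≤ δ
  · rw [if_pos h1, if_pos]
    intro v
    have h2 := h1 v
    have h3 := (abs_le.1 (hw v)).2
    rw [yM_add, add_div, Real.exp_add]
    have h4 : Real.exp (yc K w.2 w.1 v / 2) ≤ 2 := by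
      have h5 : Real.exp (yc K w.2 w.1 v / 2) ≤ Real.exp (1 / 2) :=
        Real.exp_le_exp.2 (by linarith)
      have h6 : Real.exp (1 / 2) * Real.exp (1 / 2) ≤ 3 := by
        rw [← Real.exp_add]
        have := Real.exp_one_lt_d9
        norm_num
        linarith
      have h7 := Real.exp_pos (1 / 2)
      nlinarith
    have h8 : 0 ≤ v h.1 * Real.exp (yM K M p.2 p.1 v / 2) :=
      mul_nonneg (apply_nonneg v h.1) (Real.exp_pos _).le
    calc v h.1 * (Real.exp (yM K M p.2 p.1 v / 2) * Real.exp (yc K w.2 w.1 v / 2))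
        = (v h.1 * Real.exp (yM K M p.2 p.1 v / 2)) * Real.exp (yc K w.2 w.1 v / 2) := by ring
      _ ≤ δ * 2 := mul_le_mul h2 h4 (Real.exp_pos _).le hδ.le
      _ = 2 * δ := by ring
  · rw [if_neg h1]
    exact zero_le

/-- thin into fat -/
theorem E_shift (M : FI K) (x : K) (δ : ℝ) (hδ : δ ≤ 1 / 2) (p w : logSpace K × ℝ)
    (hp : p ∈ E K M x δ) (hw : w ∈ Wc K 1) : p + w ∈ E K M x 1 := by
  intro v
  have h1 := hp v
  have h2 := hw v
  change |Real.log (v x) + yM K M (p.2 + w.2) (p.1 + w.1) v / 2| ≤ 1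
  rw [yM_add]
  rw [abs_le] at h1 h2 ⊢
  constructor <;> linarith [h1.1, h1.2, h2.1, h2.2]

open scoped Classical in
theorem vol_haar : (volume : Measure (logSpace K × ℝ)).IsAddHaarMeasure :=
  inferInstanceAs (Measure.IsAddHaarMeasure
    ((volume : Measure (logSpace K)).prod (volume : Measure ℝ)))

open scoped Classical in
/-- the volume of the shifts -/
theorem vol_shift (M : FI K) (x : K) (δ : ℝ) (q : logSpace K × ℝ) :
    volume {w : logSpace K × ℝ | q - w ∈ E K M x δ} ≤ volume (Wc K (4 * δ)) := by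
  by_cases hne : ({w : logSpace K × ℝ | q - w ∈ E K M x δ}).Nonempty
  · obtain ⟨w₀', hw₀⟩ := hne
    have hsub : {w : logSpace K × ℝ | q - w ∈ E K M x δ} ⊆
        (fun w => w + -w₀') ⁻¹' (Wc K (4 * δ)) := by
      intro w hw
      have hw2 : q - w ∈ E K M x δ := hw
      have hw3 : q - w₀' ∈ E K M x δ := hw₀
      intro v
      have h1 := hw2 v
      have h2 := hw3 v
      have e1 : yM K M (q - w₀').2 (q - w₀').1 v =
          yM K M (q - w).2 (q - w).1 v + yc K (w + -w₀').2 (w + -w₀').1 v := by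
        rw [← yM_add]
        have e2 : (q - w₀').2 = (q - w).2 + (w + -w₀').2 := by
          simp only [Prod.snd_sub, Prod.snd_add, Prod.snd_neg]
          ring
        have e3 : (q - w₀').1 = (q - w).1 + (w + -w₀').1 := by
          simp only [Prod.fst_sub, Prod.fst_add, Prod.fst_neg]
          abel
        rw [e2, e3]
      change |Real.log (v x) + yM K M (q - w).2 (q - w).1 v / 2| ≤ δ at h1
      change |Real.log (v x) + yM K M (q - w₀').2 (q - w₀').1 v / 2| ≤ δ at h2
      rw [e1] at h2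
      change |yc K (w + -w₀').2 (w + -w₀').1 v| ≤ 4 * δ
      rw [abs_le] at h1 h2 ⊢
      constructor <;> linarith [h1.1, h1.2, h2.1, h2.2]
    refine (measure_mono hsub).trans (le_of_eq ?_)
    have := vol_haar K
    exact measure_preimage_add_right volume (-w₀') _
  · rw [not_nonempty_iff_eq_empty.1 hne, measure_empty]
    exact zero_le

/-! ### Units -/

theorem idl_unit (M : FI K) (u : (𝓞 K)ˣ) (x : K) : idl K M ((u : K) * x) = idl K M x := by
  have h : FractionalIdeal.spanSingleton (𝓞 K)⁰ ((u : K) * x) =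
      FractionalIdeal.spanSingleton (𝓞 K)⁰ x := by
    have h1 : FractionalIdeal.spanSingleton (𝓞 K)⁰ (u : K) = 1 := by
      have h2 := FractionalIdeal.coeIdeal_span_singleton (S := (𝓞 K)⁰) (P := K) (u : 𝓞 K)
      rw [← h2, Ideal.span_singleton_eq_top.2 u.isUnit, FractionalIdeal.coeIdeal_top]
    rw [← FractionalIdeal.spanSingleton_mul_spanSingleton, h1, one_mul]
  unfold idl
  rw [h]

omit [NumberField K] in
theorem mem_unit (M : FI K) (u : (𝓞 K)ˣ) {x : K} (hx : x ∈ M) : (u : K) * x ∈ M := by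
  have h : ((u : 𝓞 K) • x : K) ∈ (M : Submodule (𝓞 K) K) := Submodule.smul_mem _ _ hx
  rw [Algebra.smul_def] at h
  exact h

omit [NumberField K] in
theorem unit_inv_mul (u : (𝓞 K)ˣ) (x : K) : ((u⁻¹ : (𝓞 K)ˣ) : K) * ((u : K) * x) = x := by
  rw [← mul_assoc]
  have h : ((u⁻¹ : (𝓞 K)ˣ) : K) * (u : K) = 1 := by
    rw [← map_mul, ← Units.val_mul, inv_mul_cancel, Units.val_one, map_one]
  rw [h, one_mul]

omit [NumberField K] in
theorem unit_mul_inv (u : (𝓞 K)ˣ) (x : K) : (u : K) * (((u⁻¹ : (𝓞 K)ˣ) : K) * x) = x := by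
  have h := unit_inv_mul K u⁻¹ x
  rwa [inv_inv] at h

omit [NumberField K] in
theorem unit_ne (u : (𝓞 K)ˣ) : (u : K) ≠ 0 := by simp

theorem Bl_unit {Y : ℝ} {M : FI K} (u : (𝓞 K)ˣ) {x : K} (hx : Bl Y M x) :
    Bl Y M ((u : K) * x) := by
  obtain ⟨h1, h2, h3, h4⟩ := hx
  refine ⟨mem_unit K M u h1, mul_ne_zero (unit_ne K u) h2, ?_, ?_⟩
  · rw [idl_unit]
    exact h3
  · rw [idl_unit]
    exact h4

/-- multiplication with a unit -/
def eBl (Y : ℝ) (M : FI K) (u : (𝓞 K)ˣ) : {x : K // Bl Y M x} ≃ {x : K // Bl Y M x} where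
  toFun x := ⟨(u : K) * x.1, Bl_unit K u x.2⟩
  invFun x := ⟨((u⁻¹ : (𝓞 K)ˣ) : K) * x.1, Bl_unit K u⁻¹ x.2⟩
  left_inv x := Subtype.ext (unit_inv_mul K u x.1)
  right_inv x := Subtype.ext (unit_mul_inv K u x.1)

/-- multiplication with a unit -/
def eM (L : FI K) (u : (𝓞 K)ˣ) : {x : K // x ∈ L} ≃ {x : K // x ∈ L} where
  toFun x := ⟨(u : K) * x.1, mem_unit K L u x.2⟩
  invFun x := ⟨((u⁻¹ : (𝓞 K)ˣ) : K) * x.1, mem_unit K L u⁻¹ x.2⟩
  left_inv x := Subtype.ext (unit_inv_mul K u x.1)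
  right_inv x := Subtype.ext (unit_mul_inv K u x.1)

theorem yM_unit (M : FI K) (τ : ℝ) (z : logSpace K) (u : (𝓞 K)ˣ) (v : InfinitePlace K) :
    yM K M τ (z + logEmbedding K (Additive.ofMul u)) v = yM K M τ z v + 2 * Real.log (v (u : K)) :=
  (Pool.Agent.H87.HK.yc_main K).2.2.1 _ z u v

theorem E_unit (M : FI K) (x : K) (hx : x ≠ 0) (δ : ℝ) (u : (𝓞 K)ˣ) (z : logSpace K) (τ : ℝ) :
    (z + logEmbedding K (Additive.ofMul u), τ) ∈ E K M x δ ↔
      (z, τ) ∈ E K M ((u : K) * x) δ := by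
  change Bt δ x (yM K M τ (z + logEmbedding K (Additive.ofMul u))) ↔
    Bt δ ((u : K) * x) (yM K M τ z)
  unfold Bt
  refine forall_congr' fun v => ?_
  have h1 : v (u : K) ≠ 0 := by
    rw [Ne, map_eq_zero]
    exact unit_ne K u
  have h2 : v x ≠ 0 := by
    rw [Ne, map_eq_zero]
    exact hx
  rw [yM_unit, map_mul, Real.log_mul h1 h2]
  have e : Real.log (v x) + (yM K M τ z v + 2 * Real.log (v (u : K))) / 2 =
      Real.log (v (u : K)) + Real.log (v x) + yM K M τ z v / 2 := by ring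
  rw [e]

theorem NB_unit (L M : FI K) (δ : ℝ) (u : (𝓞 K)ˣ) (z : logSpace K) (τ : ℝ) :
    NB δ L (yM K M τ (z + logEmbedding K (Additive.ofMul u))) = NB δ L (yM K M τ z) := by
  classical
  unfold NB
  rw [← (eM K L u).tsum_eq (fun h : {h : K // h ∈ L} => if ∀ v : InfinitePlace K,
    v h.1 * Real.exp (yM K M τ z v / 2) ≤ δ then (1 : ℝ≥0∞) else 0)]
  refine tsum_congr fun h => ?_
  have h1 : (∀ v : InfinitePlace K, v h.1 *
      Real.exp (yM K M τ (z + logEmbedding K (Additive.ofMul u)) v / 2) ≤ δ) ↔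
      ∀ v : InfinitePlace K, v ((eM K L u) h).1 * Real.exp (yM K M τ z v / 2) ≤ δ := by
    refine forall_congr' fun v => ?_
    have h2 : v (u : K) ≠ 0 := by
      rw [Ne, map_eq_zero]
      exact unit_ne K u
    have h3 : 0 < v (u : K) := lt_of_le_of_ne (apply_nonneg _ _) (Ne.symm h2)
    change _ ↔ v ((u : K) * h.1) * Real.exp (yM K M τ z v / 2) ≤ δ
    rw [yM_unit, map_mul, add_div, mul_div_cancel_left₀ _ two_ne_zero, Real.exp_add,
      Real.exp_log h3]
    have e : v h.1 * (Real.exp (yM K M τ z v / 2) * v (u : K)) =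
        v (u : K) * v h.1 * Real.exp (yM K M τ z v / 2) := by ring
    rw [e]
  simp only [h1]

/-! ### The comparison function -/

open scoped Classical in
/-- the comparison function -/
noncomputable def Gc (L M : FI K) (δ Y : ℝ) (q w : logSpace K × ℝ) : ℝ≥0∞ :=
  ∑' x : {x : K // Bl Y M x}, (if q - w ∈ E K M x.1 δ then 1 else 0) *
    ((if q ∈ E K M x.1 1 then 1 else 0) * NB (2 * δ) L (yM K M q.2 q.1))

open scoped Classical in
theorem Gc_meas (L M : FI K) (δ Y : ℝ) :
    Measurable (fun p : (logSpace K × ℝ) × (logSpace K × ℝ) => Gc K L M δ Y p.1 p.2) := by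
  have := countable_K K
  unfold Gc
  refine Measurable.tsum fun x => ?_
  refine Measurable.mul ?_ (Measurable.mul ?_ ?_)
  · refine Measurable.ite ?_ measurable_const measurable_const
    exact (E_meas K M x.1 δ).preimage (measurable_fst.sub measurable_snd)
  · refine Measurable.ite ?_ measurable_const measurable_const
    exact (E_meas K M x.1 1).preimage measurable_fst
  · exact (NB_meas K L M (2 * δ)).comp measurable_fst

open scoped Classical in
theorem Gc_unit (L M : FI K) (δ Y : ℝ) (w : logSpace K × ℝ) (z : logSpace K) (τ : ℝ)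
    (l : logSpace K) (hl : l ∈ unitLattice K) :
    Gc K L M δ Y (z + l, τ) w = Gc K L M δ Y (z, τ) w := by
  obtain ⟨u, -, rfl⟩ := hl
  change Gc K L M δ Y (z + logEmbedding K (Additive.ofMul (Additive.toMul u)), τ) w = _
  unfold Gc
  rw [← (eBl K Y M (Additive.toMul u)).tsum_eq (fun x : {x : K // Bl Y M x} =>
    (if ((z, τ) : logSpace K × ℝ) - w ∈ E K M x.1 δ then (1 : ℝ≥0∞) else 0) *
    ((if ((z, τ) : logSpace K × ℝ) ∈ E K M x.1 1 then 1 else 0) *
      NB (2 * δ) L (yM K M τ z)))]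
  refine tsum_congr fun x => ?_
  have h1 : ((z + logEmbedding K (Additive.ofMul (Additive.toMul u)), τ) : logSpace K × ℝ) - w =
      ((z - w.1) + logEmbedding K (Additive.ofMul (Additive.toMul u)), τ - w.2) := by
    ext1
    · simp only [Prod.fst_sub]
      abel
    · simp only [Prod.snd_sub]
  have h2 : ((z, τ) : logSpace K × ℝ) - w = (z - w.1, τ - w.2) := rfl
  rw [h1, h2]
  simp only [E_unit K M x.1 x.2.2.1, NB_unit]
  rfl

open scoped Classical in
theorem step_A (L M : FI K) (δ Y : ℝ) (hδ : 0 < δ) (hδ2 : δ ≤ 1 / 2) (p w : logSpace K × ℝ)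
    (hw : w ∈ Wc K 1) : NT δ Y M p.2 p.1 * NB δ L (yM K M p.2 p.1) ≤ Gc K L M δ Y (p + w) w := by
  unfold NT Gc
  rw [← ENNReal.tsum_mul_right]
  refine ENNReal.tsum_le_tsum fun x => ?_
  by_cases h : Bt δ x.1 (yM K M p.2 p.1)
  · have h1 : p ∈ E K M x.1 δ := h
    have h2 := E_shift K M x.1 δ hδ2 p w h1 hw
    rw [add_sub_cancel_right, if_pos h, if_pos h1, if_pos h2, one_mul, one_mul, one_mul]
    exact NB_mono K L M δ hδ p w hw
  · rw [if_neg h, zero_mul]
    exact zero_le

open scoped Classical in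
theorem step_C (L M : FI K) (δ Y : ℝ) (w : logSpace K × ℝ) :
    ∫⁻ z in Fd K, ∫⁻ τ : ℝ, Gc K L M δ Y ((z, τ) + w) w =
      ∫⁻ z in Fd K, ∫⁻ τ : ℝ, Gc K L M δ Y (z, τ) w := by
  have h1 : ∀ z : logSpace K, ∫⁻ τ : ℝ, Gc K L M δ Y ((z, τ) + w) w =
      ∫⁻ τ : ℝ, Gc K L M δ Y (z + w.1, τ) w := by
    intro z
    exact lintegral_add_right_eq_self (fun τ : ℝ => Gc K L M δ Y (z + w.1, τ) w) w.2
  rw [lintegral_congr h1]
  refine Fd_trans K (fun z => ∫⁻ τ : ℝ, Gc K L M δ Y (z, τ) w) (fun z l hl => ?_) w.1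
  refine lintegral_congr fun τ => ?_
  exact Gc_unit K L M δ Y w z τ l hl

open scoped Classical in
theorem step_D (L M : FI K) (δ Y : ℝ) (q : logSpace K × ℝ) :
    ∫⁻ w in Wc K 1, Gc K L M δ Y q w ≤
      volume (Wc K (4 * δ)) * (NT 1 Y M q.2 q.1 * NB (2 * δ) L (yM K M q.2 q.1)) := by
  have := countable_K K
  have hm : ∀ x : {x : K // Bl Y M x}, Measurable (fun w : logSpace K × ℝ =>
      (if q - w ∈ E K M x.1 δ then (1 : ℝ≥0∞) else 0)) := by
    intro x
    refine Measurable.ite ?_ measurable_const measurable_const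
    exact (E_meas K M x.1 δ).preimage (measurable_const.sub measurable_id)
  unfold Gc NT
  rw [← ENNReal.tsum_mul_right, ← ENNReal.tsum_mul_left,
    lintegral_tsum (fun x => ((hm x).mul_const _).aemeasurable)]
  refine ENNReal.tsum_le_tsum fun x => ?_
  rw [lintegral_mul_const _ (hm x)]
  have h1 : ∫⁻ w in Wc K 1, (if q - w ∈ E K M x.1 δ then (1 : ℝ≥0∞) else 0) ≤
      volume (Wc K (4 * δ)) := by
    refine le_trans ?_ (vol_shift K M x.1 δ q)
    refine (setLIntegral_le_lintegral _ _).trans (le_of_eq ?_)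
    have h2 : (fun w : logSpace K × ℝ => (if q - w ∈ E K M x.1 δ then (1 : ℝ≥0∞) else 0)) =
        ({w : logSpace K × ℝ | q - w ∈ E K M x.1 δ}).indicator 1 := by
      funext w
      rw [indicator_apply]
      rfl
    rw [h2, lintegral_indicator_one]
    exact (E_meas K M x.1 δ).preimage (measurable_const.sub measurable_id)
  refine mul_le_mul' h1 (le_of_eq ?_)
  rfl

open scoped Classical in
/-- the comparison -/
theorem compare (L M : FI K) (δ Y : ℝ) (hδ : 0 < δ) (hδ2 : δ ≤ 1 / 2) :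
    volume (Wc K 1) * ∫⁻ z in Fd K, ∫⁻ τ : ℝ, NT δ Y M τ z * NB δ L (yM K M τ z) ≤
      volume (Wc K (4 * δ)) *
        ∫⁻ z in Fd K, ∫⁻ τ : ℝ, NT 1 Y M τ z * NB (2 * δ) L (yM K M τ z) := by
  have hG := Gc_meas K L M δ Y
  set I := ∫⁻ z in Fd K, ∫⁻ τ : ℝ, NT δ Y M τ z * NB δ L (yM K M τ z) with hI
  have h1 : volume (Wc K 1) * I ≤
      ∫⁻ w in Wc K 1, ∫⁻ z in Fd K, ∫⁻ τ : ℝ, Gc K L M δ Y (z, τ) w := by
    rw [mul_comm, ← setLIntegral_const]
    refine setLIntegral_mono' (Wc_meas K 1) fun w hw => ?_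
    rw [← step_C]
    refine lintegral_mono fun z => lintegral_mono fun τ => ?_
    exact step_A K L M δ Y hδ hδ2 (z, τ) w hw
  refine h1.trans ?_
  have hsw : ∀ w : logSpace K × ℝ, ∫⁻ z in Fd K, ∫⁻ τ : ℝ, Gc K L M δ Y (z, τ) w =
      ∫⁻ q, Gc K L M δ Y q w ∂((volume.restrict (Fd K)).prod (volume : Measure ℝ)) := by
    intro w
    exact (lintegral_prod (fun q : logSpace K × ℝ => Gc K L M δ Y q w)
      (hG.comp measurable_prodMk_right).aemeasurable).symm
  rw [lintegral_congr hsw]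
  have h2 : ∫⁻ w in Wc K 1,
      ∫⁻ q, Gc K L M δ Y q w ∂((volume.restrict (Fd K)).prod (volume : Measure ℝ)) =
      ∫⁻ q, (∫⁻ w in Wc K 1, Gc K L M δ Y q w)
        ∂((volume.restrict (Fd K)).prod (volume : Measure ℝ)) := by
    refine lintegral_lintegral_swap ?_
    exact (hG.comp measurable_swap).aemeasurable
  rw [h2]
  refine (lintegral_mono fun q => step_D K L M δ Y q).trans ?_
  have hNT : Measurable (fun q : logSpace K × ℝ => NT 1 Y M q.2 q.1) := by
    have := countable_K K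
    unfold NT
    refine Measurable.tsum fun x => ?_
    refine Measurable.ite ?_ measurable_const measurable_const
    exact E_meas K M x.1 1
  have hm : Measurable (fun q : logSpace K × ℝ => NT 1 Y M q.2 q.1 *
      NB (2 * δ) L (yM K M q.2 q.1)) := hNT.mul (NB_meas K L M (2 * δ))
  rw [lintegral_const_mul _ hm, lintegral_prod _ hm.aemeasurable]

end

open scoped Classical in
/-- (TF) -/
theorem pf_TF (hVL : U_VL) : U_TF := by
  intro n hn
  obtain ⟨c, C, hc, hC, h⟩ := hVL n
  refine ⟨2 + C * 4 ^ n / c, by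
    have : 0 ≤ C * 4 ^ n / c := by positivity
    linarith, fun K _ _ hK f M δ Y hf hM hδ hδ2 hY => ?_⟩
  set A := 2 + C * 4 ^ n / c with hA
  have hA0 : 0 ≤ C * 4 ^ n / c := by positivity
  obtain ⟨h1, -⟩ := h K hK 1 zero_lt_one (by norm_num)
  obtain ⟨-, h2⟩ := h K hK (4 * δ) (by linarith) (by linarith)
  rw [one_pow, mul_one] at h1
  have h3 := compare K ((f : FI K) * M) M δ Y hδ hδ2
  set I := ∫⁻ z in Fd K, ∫⁻ τ : ℝ, NT δ Y M τ z * NB δ ((f : FI K) * M) (yM K M τ z) with hI
  set J := ∫⁻ z in Fd K, ∫⁻ τ : ℝ, NT 1 Y M τ z *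
    NB (A * δ) ((f : FI K) * M) (yM K M τ z) with hJ
  have h4 : ∫⁻ z in Fd K, ∫⁻ τ : ℝ, NT 1 Y M τ z *
      NB (2 * δ) ((f : FI K) * M) (yM K M τ z) ≤ J := by
    refine lintegral_mono fun z => lintegral_mono fun τ => ?_
    refine mul_le_mul' le_rfl ?_
    unfold NB
    refine ENNReal.tsum_le_tsum fun h => ?_
    by_cases h5 : ∀ v : InfinitePlace K, v h.1 * Real.exp (yM K M τ z v / 2) ≤ 2 * δ
    · rw [if_pos h5, if_pos]
      intro v
      refine (h5 v).trans ?_
      refine mul_le_mul_of_nonneg_right ?_ hδ.le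
      rw [hA]
      linarith
    · rw [if_neg h5]
      exact zero_le
  have h5 : ENNReal.ofReal c * I ≤ ENNReal.ofReal (C * (4 * δ) ^ np K) * J :=
    (mul_le_mul' h1 le_rfl).trans (h3.trans (mul_le_mul' h2 h4))
  have hc0 : ENNReal.ofReal c ≠ 0 := by
    rw [Ne, ENNReal.ofReal_eq_zero]
    linarith
  have h6 : I ≤ (ENNReal.ofReal c)⁻¹ * (ENNReal.ofReal (C * (4 * δ) ^ np K) * J) := by
    have h7 : I = (ENNReal.ofReal c)⁻¹ * (ENNReal.ofReal c * I) := by
      rw [← mul_assoc, ENNReal.inv_mul_cancel hc0 ENNReal.ofReal_ne_top, one_mul]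
    rw [h7]
    exact mul_le_mul' le_rfl h5
  refine h6.trans ?_
  rw [← mul_assoc, ← ENNReal.ofReal_inv_of_pos hc, ← ENNReal.ofReal_mul (by positivity)]
  refine mul_le_mul' (ENNReal.ofReal_le_ofReal ?_) le_rfl
  have hnp : np K ≤ n := by
    unfold np
    have := card_add_two_mul_card_eq_rank K
    omega
  have h8 : (4 : ℝ) ^ np K ≤ 4 ^ n := pow_le_pow_right₀ (by norm_num) hnp
  have h9 : 0 ≤ δ ^ np K := by positivity
  rw [mul_pow]
  calc c⁻¹ * (C * (4 ^ np K * δ ^ np K)) = (C * 4 ^ np K / c) * δ ^ np K := by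
        field_simp
    _ ≤ (C * 4 ^ n / c) * δ ^ np K := by
        refine mul_le_mul_of_nonneg_right ?_ h9
        exact div_le_div_of_nonneg_right (mul_le_mul_of_nonneg_left h8 hC) hc.le
    _ ≤ A * δ ^ np K := by
        refine mul_le_mul_of_nonneg_right ?_ h9
        rw [hA]
        linarith

end Pool.Agent.H61.GLB
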