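import Pool.Agent.H61.GLB.UB4

/-!
# (UB) unfolding
-/

set_option autoImplicit false

open NumberField NumberField.InfinitePlace NumberField.Units
  NumberField.Units.dirichletUnitTheorem MeasureTheory Set Filter Complex
open scoped nonZeroDivisors ENNReal

namespace Pool.Agent.H61.GLB

open Pool.Agent.H25.HK Pool.Agent.H23.LB Pool.Agent.H23.LC
open Pool.Agent.H28.RC (Rep ft idl)
open Pool.Agent.H19.RC (Par)

section
open scoped Classical

variable (K : Type) [Field K] [NumberField K]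

/-- the total mass of the integrands with coefficients -/
theorem tot_F3 (Y δ : ℝ) (hδ0 : 0 < δ) (hδ : δ ≤ 1 / 8) (M : FI K) (hM : M ≠ 0)
    (b : Ideal (𝓞 K) → ℂ) (k : InfinitePlace K → ℤ) (ν : InfinitePlace K → ℝ) (t : ℝ)
    (c : K → ℂ) (hc : ∀ x : {x : K // Bl Y M x}, ‖c x.1‖ ≤ ‖b (idl K M x.1)‖) :
    ∑' x : {x : K // Bl Y M x}, ∫⁻ q, ‖c x.1 * F3 K M δ k ν t x.1 q‖ₑ ∂(m3 K) ≠ ∞ := by
  refine ne_top_of_le_ne_top (ENNReal.mul_ne_top (An_fin K).ne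
    (fin_tot K Y (2 * δ) (by linarith) M hM b)) ?_
  rw [← ENNReal.tsum_mul_left]
  refine ENNReal.tsum_le_tsum fun x => ?_
  have h1 : ∫⁻ q, ‖c x.1 * F3 K M δ k ν t x.1 q‖ₑ ∂(m3 K) =
      ‖c x.1‖ₑ * ∫⁻ q, ‖F3 K M δ k ν t x.1 q‖ₑ ∂(m3 K) := by
    simp only [enorm_mul]
    rw [lintegral_const_mul' _ _ enorm_ne_top]
  rw [h1]
  have h2 : ‖c x.1‖ₑ ≤ ‖b (idl K M x.1)‖ₑ := by
    rw [← ofReal_norm, ← ofReal_norm]
    exact ENNReal.ofReal_le_ofReal (hc x)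
  refine (mul_le_mul' h2 (F3_lint K M δ hδ k ν t x.1 x.2.2.1)).trans (le_of_eq ?_)
  ring

/-- summability of the integrals -/
theorem sum_Jx (Y δ : ℝ) (hδ0 : 0 < δ) (hδ : δ ≤ 1 / 8) (M : FI K) (hM : M ≠ 0)
    (b : Ideal (𝓞 K) → ℂ) (k : InfinitePlace K → ℤ) (ν : InfinitePlace K → ℝ) (t : ℝ)
    (c : K → ℂ) (hc : ∀ x : {x : K // Bl Y M x}, ‖c x.1‖ ≤ ‖b (idl K M x.1)‖) :
    Summable (fun x : {x : K // Bl Y M x} => c x.1 * Jx K M δ k ν t x.1) := by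
  have h := ENNReal.summable_toReal (tot_F3 K Y δ hδ0 hδ M hM b k ν t c hc)
  refine Summable.of_norm_bounded h fun x => ?_
  unfold Jx
  rw [← integral_const_mul]
  refine (norm_integral_le_integral_norm _).trans (le_of_eq ?_)
  rw [integral_norm_eq_lintegral_enorm
    ((F3_meas K M δ k ν t x.1).const_mul _).aestronglyMeasurable]

/-- the integral of the sum over a residue class -/
theorem res_int (f : Ideal (𝓞 K)) (Y δ : ℝ) (hδ0 : 0 < δ) (hδ : δ ≤ 1 / 8) (M : FI K)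
    (hM : M ≠ 0) (b : Ideal (𝓞 K) → ℂ) (k : InfinitePlace K → ℤ) (ν : InfinitePlace K → ℝ)
    (t : ℝ) (r : K) :
    ∫ p in Fd K ×ˢ (univ : Set ℝ) ×ˢ An K, ec K ν p.1 * cexp (t * p.2.1 * I) *
        (ek k p.2.2 * Sp f δ Y b M r p.2.1 p.1 p.2.2) =
      ∑' x : {x : K // Bl Y M x},
        (if x.1 - r ∈ (f : FI K) * M then b (idl K M x.1) else 0) * Jx K M δ k ν t x.1 := by
  have hK := countable_K K
  set c : K → ℂ := fun x => if x - r ∈ (f : FI K) * M then b (idl K M x) else 0 with hcd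
  have hc : ∀ x : {x : K // Bl Y M x}, ‖c x.1‖ ≤ ‖b (idl K M x.1)‖ := by
    intro x
    simp only [hcd]
    split_ifs
    · exact le_rfl
    · rw [norm_zero]
      exact norm_nonneg _
  have htot := tot_F3 K Y δ hδ0 hδ M hM b k ν t c hc
  rw [int3]
  have h1 : ∀ q : (logSpace K × ℝ) × (InfinitePlace K → ℝ),
      ec K ν q.1.1 * cexp (t * q.1.2 * I) * (ek k q.2 * Sp f δ Y b M r q.1.2 q.1.1 q.2) =
      ∑' x : {x : K // Bl Y M x}, c x.1 * F3 K M δ k ν t x.1 q := by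
    intro q
    have h2 : ∀ x : {x : K // Bl Y M x}, c x.1 * F3 K M δ k ν t x.1 q =
        (ec K ν q.1.1 * cexp (t * q.1.2 * I) * ek k q.2) *
          (if x.1 - r ∈ (f : FI K) * M ∧ Bp δ x.1 (yM K M q.1.2 q.1.1) q.2 then
            b (idl K M x.1) else 0) := by
      intro x
      simp only [hcd, F3, bi, ct]
      by_cases h3 : x.1 - r ∈ (f : FI K) * M
      · by_cases h4 : Bp δ x.1 (yM K M q.1.2 q.1.1) q.2
        · rw [if_pos h3, if_pos h4, if_pos ⟨h3, h4⟩]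
          ring
        · simp only [h4, and_false, if_false, mul_zero]
      · simp only [h3, false_and, if_false, mul_zero, zero_mul]
    simp only [h2]
    rw [tsum_mul_left]
    unfold Sp
    ring
  rw [integral_congr_ae (ae_of_all _ h1), integral_tsum]
  · refine tsum_congr fun x => ?_
    rw [integral_const_mul]
    rfl
  · intro x
    exact ((F3_meas K M δ k ν t x.1).const_mul _).aestronglyMeasurable
  · exact htot

/-- the sum over the residue classes -/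
theorem class_sum (hCG : U_CG) (f : Ideal (𝓞 K)) (hf : f ≠ ⊥) (χ : HG K f) (Y δ : ℝ)
    (hδ0 : 0 < δ) (hδ : δ ≤ 1 / 8) (M : FI K) (hM : M ≠ 0) (X : Finset K) (hX : Rep K f M X)
    (b : Ideal (𝓞 K) → ℂ) (t : ℝ) :
    ∑ r ∈ X, cg χ M r * ∫ p in Fd K ×ˢ (univ : Set ℝ) ×ˢ An K,
        ec K χ.ν p.1 * cexp (t * p.2.1 * I) * (ek χ.k p.2.2 * Sp f δ Y b M r p.2.1 p.1 p.2.2) =
      ∑' x : {x : K // Bl Y M x}, (cg χ M x.1 * b (idl K M x.1)) *
        Jx K M δ χ.k χ.ν t x.1 := by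
  obtain ⟨-, hcg1, -, hcg2, -⟩ := hCG K f χ M hf hM
  have hs : ∀ r ∈ X, Summable (fun x : {x : K // Bl Y M x} => cg χ M r *
      ((if x.1 - r ∈ (f : FI K) * M then b (idl K M x.1) else 0) *
        Jx K M δ χ.k χ.ν t x.1)) := by
    intro r _
    refine Summable.mul_left _ ?_
    refine sum_Jx K Y δ hδ0 hδ M hM b χ.k χ.ν t
      (fun x => if x - r ∈ (f : FI K) * M then b (idl K M x) else 0) fun x => ?_
    split_ifs
    · exact le_rfl
    · rw [norm_zero]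
      exact norm_nonneg _
  have h1 : ∀ r ∈ X, cg χ M r * ∫ p in Fd K ×ˢ (univ : Set ℝ) ×ˢ An K,
        ec K χ.ν p.1 * cexp (t * p.2.1 * I) * (ek χ.k p.2.2 * Sp f δ Y b M r p.2.1 p.1 p.2.2) =
      ∑' x : {x : K // Bl Y M x}, cg χ M r *
      ((if x.1 - r ∈ (f : FI K) * M then b (idl K M x.1) else 0) *
        Jx K M δ χ.k χ.ν t x.1) := by
    intro r _
    rw [res_int K f Y δ hδ0 hδ M hM b χ.k χ.ν t r, tsum_mul_left]
  rw [Finset.sum_congr rfl h1, ← Summable.tsum_finsetSum hs]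
  refine tsum_congr fun x => ?_
  obtain ⟨r₀, ⟨hr1, hr2⟩, hu⟩ := hX.2 x.1 x.2.1
  rw [Finset.sum_eq_single_of_mem r₀ hr1]
  · rw [if_pos hr2]
    have h2 := hcg2 r₀ (hX.1 r₀ hr1) (x.1 - r₀) hr2
    rw [add_sub_cancel] at h2
    rw [h2]
    ring
  · intro r hr hne
    rw [if_neg (fun h => hne (hu r ⟨hr, h⟩)), zero_mul, mul_zero]

/-- the unfolding of one class -/
theorem class_unf (hAN : U_AN) (hAG : U_AG) (hCG : U_CG) (hPU : T_PU) (f : Ideal (𝓞 K))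
    (hf : f ≠ ⊥) (χ : HG K f) (Y δ : ℝ) (hY : 0 < Y) (hδ0 : 0 < δ) (hδ : δ ≤ 1 / 8) (M : FI K)
    (hM : M ≠ 0) (b : Ideal (𝓞 K) → ℂ) (t : ℝ) :
    ∑' x : {x : K // Bl Y M x}, (cg χ M x.1 * b (idl K M x.1)) *
        Jx K M δ χ.k χ.ν t x.1 =
      (torsionOrder K : ℂ) * Uh K δ χ.k χ.ν t * ∑' J : {I : Ideal (𝓞 K) // Pri K M I},
        (if Y ≤ (Ideal.absNorm J.1 : ℝ) ∧ (Ideal.absNorm J.1 : ℝ) < 2 * Y then
          b J.1 * χ.ψ J.1 * (Ideal.absNorm J.1 : ℂ) ^ (-(t * I : ℂ)) else 0) := by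
  obtain ⟨X, hP, hnorm⟩ := par_exists K M hM
  have hcu := countable_U K
  have hfin := TM_finite K Y M
  have hft := Fintype.ofFinite (TM K Y M)
  obtain ⟨hcg0, hcg1, -⟩ := hCG K f χ M hf hM
  have hMn : 0 < (FractionalIdeal.absNorm M : ℝ) := by
    have h2 : (0 : ℚ) ≤ FractionalIdeal.absNorm M := FractionalIdeal.absNorm_nonneg M
    have h3 : FractionalIdeal.absNorm M ≠ 0 :=
      fun h => hM (FractionalIdeal.absNorm_eq_zero_iff.mp h)
    have h4 : (0 : ℚ) < FractionalIdeal.absNorm M := lt_of_le_of_ne h2 h3.symm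
    exact_mod_cast h4
  -- summability
  have hs : Summable (fun x : {x : K // Bl Y M x} => (cg χ M x.1 * b (idl K M x.1)) *
      Jx K M δ χ.k χ.ν t x.1) := by
    refine sum_Jx K Y δ hδ0 hδ M hM b χ.k χ.ν t
      (fun x => cg χ M x * b (idl K M x)) fun x => ?_
    rw [norm_mul]
    exact mul_le_of_le_one_left (norm_nonneg _) (hcg1 x.1 x.2.1)
  have hs2 : Summable (fun p : TM K Y M × (𝓞 K)ˣ =>
      (cg χ M (eT Y M hM hP p).1 * b (idl K M (eT Y M hM hP p).1)) *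
      Jx K M δ χ.k χ.ν t (eT Y M hM hP p).1) := (eT Y M hM hP).summable_iff.2 hs
  rw [← (eT Y M hM hP).tsum_eq, hs2.tsum_prod]
  -- one point
  have hone : ∀ (J : TM K Y M) (u : (𝓞 K)ˣ),
      (cg χ M (eT Y M hM hP (J, u)).1 * b (idl K M (eT Y M hM hP (J, u)).1)) *
      Jx K M δ χ.k χ.ν t (eT Y M hM hP (J, u)).1 =
      (b J.1.1 * χ.ψ J.1.1 * (starRingEnd ℂ) (ph χ.ν (X J.1))) *
        ∫ p, Q2 K M δ χ.k χ.ν t (X J.1) (p.1 + lg K u, p.2) ∂(nu K) := by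
    intro J u
    have hX0 := hP.X0 J.1
    have hne := hP.ne (J.1, u)
    simp only at hne
    have hidl := hP.idl_eq Pool.Agent.H92.RC.pf_ID hM (J.1, u)
    simp only at hidl
    rw [eT_apply]
    simp only
    rw [hidl, Jx_eq K M δ hδ0 hδ χ.k χ.ν t _ hne, hcg0 _ (hP.XM J.1 u) hne, hidl,
      ← integral_const_mul, ← integral_const_mul]
    refine integral_congr_ae (ae_of_all _ fun p => ?_)
    simp only
    rw [ang K hAN δ χ.k _ hne]
    unfold Q2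
    have h1 : (fun v => yM K M p.2 (p.1 + lg K u) v + 2 * Real.log (v (X J.1))) =
        fun v => yM K M p.2 p.1 v + 2 * Real.log (v ((u : K) * X J.1)) := by
      funext v
      have h2 : yM K M p.2 (p.1 + lg K u) v = yM K M p.2 p.1 v + 2 * Real.log (v (u : K)) :=
        yM_unit K M p.2 p.1 u v
      have h3 : v (u : K) ≠ 0 := by
        rw [Ne, map_eq_zero]
        exact unit_ne K u
      have h4 : v (X J.1) ≠ 0 := by
        rw [Ne, map_eq_zero]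
        exact hX0
      rw [h2, map_mul, Real.log_mul h3 h4]
      ring
    have h5 : ct K χ.ν t (p.1 + lg K u, p.2) =
        (starRingEnd ℂ) (ph χ.ν (u : K)) * ct K χ.ν t p := by
      unfold ct
      have h6 : ec K χ.ν (p.1 + lg K u) = (starRingEnd ℂ) (ph χ.ν (u : K)) * ec K χ.ν p.1 :=
        (hPU K).2.2.2.1 χ.ν p.1 u
      simp only
      rw [h6]
      ring
    have h7 : ph χ.ν ((u : K) * X J.1) = ph χ.ν (u : K) * ph χ.ν (X J.1) :=
      (hPU K).2.2.2.2.2.1 χ.ν (u : K) (X J.1) (unit_ne K u) hX0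
    have h8 : (starRingEnd ℂ) (ag χ.k ((u : K) * X J.1)) * ag χ.k ((u : K) * X J.1) = 1 := by
      rw [mul_comm, Complex.mul_conj, Complex.normSq_eq_norm_sq, (hAG K χ.k).2.1 _ hne]
      norm_num
    rw [h1, h5, h7, map_mul]
    linear_combination ((starRingEnd ℂ) (ph χ.ν (u : K)) * (starRingEnd ℂ) (ph χ.ν (X J.1)) *
      χ.ψ J.1.1 * b J.1.1 * ct K χ.ν t p * Ps K δ χ.k 1
        (fun v => yM K M p.2 p.1 v + 2 * Real.log (v ((u : K) * X J.1)))) * h8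
  -- one class of units
  have hJ : ∀ J : TM K Y M, ∑' u : (𝓞 K)ˣ,
      (cg χ M (eT Y M hM hP (J, u)).1 * b (idl K M (eT Y M hM hP (J, u)).1)) *
      Jx K M δ χ.k χ.ν t (eT Y M hM hP (J, u)).1 =
      (torsionOrder K : ℂ) * Uh K δ χ.k χ.ν t *
        (b J.1.1 * χ.ψ J.1.1 * (Ideal.absNorm J.1.1 : ℂ) ^ (-(t * I : ℂ))) := by
    intro J
    simp only [hone]
    have hX0 := hP.X0 J.1
    have hN : 0 < Ideal.absNorm J.1.1 := by
      have h1 : (0 : ℝ) < (Ideal.absNorm J.1.1 : ℝ) := lt_of_lt_of_le hY J.2.1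
      exact_mod_cast h1
    obtain ⟨-, -, h3⟩ := unf_int K Pool.Agent.H66.HK.fd Pool.Agent.H41.HK.un
      (Q2 K M δ χ.k χ.ν t (X J.1)) (Q2_meas K hAN hAG M δ χ.k χ.ν t _ hX0)
      (Q2_int K hAN hAG M δ hδ0 hδ χ.k χ.ν t _ hX0)
    rw [tsum_mul_left, h3, Q2_val K hPU M δ χ.k χ.ν χ.norm_zero t (X J.1) hX0
      (Ideal.absNorm J.1.1) hN hMn (hnorm J.1)]
    have h4 : (starRingEnd ℂ) (ph χ.ν (X J.1)) * ph χ.ν (X J.1) = 1 := by
      rw [mul_comm, Complex.mul_conj, Complex.normSq_eq_norm_sq, (hPU K).2.2.2.2.2.2 χ.ν (X J.1)]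
      norm_num
    linear_combination (b J.1.1 * χ.ψ J.1.1 * (torsionOrder K : ℂ) *
      (Ideal.absNorm J.1.1 : ℂ) ^ (-(t * I : ℂ)) * Uh K δ χ.k χ.ν t) * h4
  simp only [hJ]
  rw [tsum_mul_left]
  congr 1
  -- the sum over the ideals of the class
  let g : TM K Y M → {I : Ideal (𝓞 K) // Pri K M I} := fun J => J.1
  have hg : Function.Injective g := Subtype.val_injective
  rw [← hg.tsum_eq]
  · refine tsum_congr fun J => ?_
    rw [if_pos J.2]
  · intro J hJ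
    rw [Function.mem_support] at hJ
    by_cases h : Y ≤ (Ideal.absNorm J.1 : ℝ) ∧ (Ideal.absNorm J.1 : ℝ) < 2 * Y
    · exact ⟨⟨J, h⟩, rfl⟩
    · exact absurd (if_neg h) hJ

end

open scoped Classical in
/-- (UB) -/
theorem pf_UB (hAN : U_AN) (hAG : U_AG) (hCG : U_CG) (hPU : Pool.Agent.H23.LB.T_PU) : U_UB := by
  intro K _ _ f hf D χ δ Y t b hδ0 hδn hY
  have hn : (1 : ℝ) ≤ Module.finrank ℚ K := by
    have := Module.finrank_pos (R := ℚ) (M := K)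
    exact_mod_cast this
  have hδ : δ ≤ 1 / 8 := by nlinarith
  let e : (Σ c : D.ι, {I : Ideal (𝓞 K) // Pri K (D.M c) I}) ≃ NZI K :=
    Equiv.ofBijective (fun q => ⟨q.2.1, q.2.2.1⟩) (by
      constructor
      · rintro ⟨c, J, hJ⟩ ⟨c', J', hJ'⟩ h
        have h1 : J = J' := by simpa using h
        subst h1
        have h2 : c = c' := (D.reps.2 J hJ.1).unique hJ hJ'
        subst h2
        rfl
      · rintro ⟨J, hJ⟩
        obtain ⟨c, hc, -⟩ := D.reps.2 J hJ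
        exact ⟨⟨c, J, hc⟩, rfl⟩)
  have hsupp : Summable (fun J : NZI K =>
      if Y ≤ (Ideal.absNorm J.1 : ℝ) ∧ (Ideal.absNorm J.1 : ℝ) < 2 * Y then
        b J.1 * χ.ψ J.1 * (Ideal.absNorm J.1 : ℂ) ^ (-(t * I : ℂ)) else 0) := by
    refine summable_of_hasFiniteSupport ?_
    have h1 : {I : Ideal (𝓞 K) | Ideal.absNorm I ≤ ⌈2 * Y⌉₊}.Finite :=
      Ideal.finite_setOfPred_absNorm_le _
    refine Set.Finite.subset (h1.preimage (f := fun J : NZI K => J.1)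
      Subtype.val_injective.injOn) fun J hJ => ?_
    rw [Function.mem_support] at hJ
    by_cases h : Y ≤ (Ideal.absNorm J.1 : ℝ) ∧ (Ideal.absNorm J.1 : ℝ) < 2 * Y
    · have h2 : (Ideal.absNorm J.1 : ℝ) ≤ (⌈2 * Y⌉₊ : ℝ) := h.2.le.trans (Nat.le_ceil _)
      have h3 : Ideal.absNorm J.1 ≤ ⌈2 * Y⌉₊ := by exact_mod_cast h2
      exact h3
    · exact absurd (if_neg h) hJ
  have hser : bs χ.ψ b Y t = ∑ c, ∑' J : {I : Ideal (𝓞 K) // Pri K (D.M c) I},
      (if Y ≤ (Ideal.absNorm J.1 : ℝ) ∧ (Ideal.absNorm J.1 : ℝ) < 2 * Y then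
        b J.1 * χ.ψ J.1 * (Ideal.absNorm J.1 : ℂ) ^ (-(t * I : ℂ)) else 0) := by
    unfold bs
    rw [← e.tsum_eq]
    have h1 := e.summable_iff.2 hsupp
    have h2 : Summable (fun q : (Σ c : D.ι, {I : Ideal (𝓞 K) // Pri K (D.M c) I}) =>
        if Y ≤ (Ideal.absNorm (e q).1 : ℝ) ∧ (Ideal.absNorm (e q).1 : ℝ) < 2 * Y then
        b (e q).1 * χ.ψ (e q).1 * (Ideal.absNorm (e q).1 : ℂ) ^ (-(t * I : ℂ)) else 0) := h1
    rw [h2.tsum_sigma, tsum_fintype]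
    rfl
  rw [hser, Finset.mul_sum]
  refine Finset.sum_congr rfl fun c _ => ?_
  rw [class_sum K hCG f hf χ Y δ hδ0 hδ (D.M c) (D.reps.1 c) (D.X c) (D.rep c) b t,
    class_unf K hAN hAG hCG hPU f hf χ Y δ hY hδ0 hδ (D.M c) (D.reps.1 c) b t]

end Pool.Agent.H61.GLB
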