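import Pool.Agent.H61.GLB.UB4

/-!
# The integral over the angles with conjugate angles
-/

set_option autoImplicit false

open NumberField NumberField.InfinitePlace NumberField.Units
  NumberField.Units.dirichletUnitTheorem MeasureTheory Set Filter Complex
open scoped nonZeroDivisors ENNReal

namespace Pool.Agent.H61.GLB

open Pool.Agent.H25.HK Pool.Agent.H23.LB Pool.Agent.H23.LC
open Pool.Agent.H28.RC (Rep ft idl)

section
open scoped Classical

variable (K : Type) [Field K] [NumberField K]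

/-- the integral over the angles, conjugate angles -/
noncomputable def Pd (δ : ℝ) (k : InfinitePlace K → ℤ) (x : K) (y : InfinitePlace K → ℝ) : ℂ :=
  ∫ θ in An K, ek k θ * if Bd δ x y θ then 1 else 0

theorem Pd_prod (δ : ℝ) (k : InfinitePlace K → ℤ) (x : K) (y : InfinitePlace K → ℝ) :
    Pd K δ k x y = ∏ v : InfinitePlace K, ∫ θ in Icc (0 : ℝ) (2 * Real.pi), an v θ ^ (-k v) *
      (if ‖v.embedding x * ((Real.exp (y v / 2) : ℝ) : ℂ) * (starRingEnd ℂ) (an v θ) - 1‖ ≤ δ
        then (1 : ℂ) else 0) := by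
  unfold Pd An
  have h1 : (volume : Measure (InfinitePlace K → ℝ)).restrict
      (Set.univ.pi fun _ => Set.Icc 0 (2 * Real.pi)) =
      Measure.pi (fun _ : InfinitePlace K => (volume : Measure ℝ).restrict (Icc 0 (2 * Real.pi))) := by
    rw [volume_pi, Measure.restrict_pi_pi]
  rw [h1, ← integral_fintype_prod_eq_prod]
  refine integral_congr_ae (ae_of_all _ fun θ => ?_)
  simp only
  rw [Finset.prod_mul_distrib]
  unfold ek Bd
  congr 1
  convert ind_prod K
    (fun v => ‖v.embedding x * ((Real.exp (y v / 2) : ℝ) : ℂ) *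
      (starRingEnd ℂ) (an v (θ v)) - 1‖ ≤ δ)

theorem angd (hAN : U_AN) (δ : ℝ) (k : InfinitePlace K → ℤ) (x : K) (hx : x ≠ 0)
    (y : InfinitePlace K → ℝ) :
    Pd K δ k x y = ag (-k) x * Ps K δ (-k) 1 (fun v => y v + 2 * Real.log (v x)) := by
  rw [Pd_prod, Ps_prod]
  unfold ag
  rw [← Finset.prod_mul_distrib]
  refine Finset.prod_congr rfl fun v _ => ?_
  have h1 := (hAN K v x hx (k v) δ (Real.exp (y v / 2)) (Real.exp_pos _)).2
  rw [h1]
  rw [Pi.neg_apply, neg_neg]
  congr 1
  refine integral_congr_ae (ae_of_all _ fun θ => ?_)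
  simp only
  have hv : 0 < v x := by
    rw [InfinitePlace.pos_iff]
    exact hx
  have h2 : Real.exp ((y v + 2 * Real.log (v x)) / 2) = v x * Real.exp (y v / 2) := by
    rw [add_div, mul_div_cancel_left₀ _ (two_ne_zero), Real.exp_add, Real.exp_log hv]
    ring
  rw [h2, map_one, one_mul]

omit [NumberField K] in
theorem Bd_log (δ : ℝ) (hδ : δ ≤ 1 / 8) (x : K) (hx : x ≠ 0) (y : InfinitePlace K → ℝ)
    (θ : InfinitePlace K → ℝ) (h : Bd δ x y θ) : Bt (2 * δ) x y := by
  intro v
  have h1 := h v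
  have hv : 0 < v x := by
    rw [InfinitePlace.pos_iff]
    exact hx
  have hδ0 : 0 ≤ δ := (norm_nonneg _).trans h1
  have h2 : |v x * Real.exp (y v / 2) - 1| ≤ δ := by
    have h3 := abs_norm_sub_norm_le
      (v.embedding x * ((Real.exp (y v / 2) : ℝ) : ℂ) * (starRingEnd ℂ) (an v (θ v))) 1
    rw [norm_mul, norm_mul, RCLike.norm_conj, an_norm, norm_one, mul_one, Complex.norm_real,
      Real.norm_of_nonneg (Real.exp_pos _).le, norm_embedding_eq] at h3
    exact h3.trans h1
  set s := v x * Real.exp (y v / 2) with hs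
  have hs0 : 0 < s := mul_pos hv (Real.exp_pos _)
  have hlog : Real.log (v x) + y v / 2 = Real.log s := by
    rw [hs, Real.log_mul hv.ne' (Real.exp_pos _).ne', Real.log_exp]
  rw [hlog, abs_le]
  rw [abs_le] at h2
  have h4 := Real.log_le_sub_one_of_pos hs0
  have h5 := Real.one_sub_inv_le_log_of_pos hs0
  constructor
  · have h6 : -(2 * δ) ≤ 1 - s⁻¹ := by
      have h7 : s⁻¹ ≤ 1 + 2 * δ := by
        rw [inv_le_comm₀ hs0 (by linarith)]
        have h8 : (1 + 2 * δ)⁻¹ ≤ 1 - δ := by
          rw [inv_le_comm₀ (by linarith) (by linarith), inv_eq_one_div, div_le_iff₀ (by linarith)]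
          nlinarith
        linarith
      linarith
    linarith
  · linarith

end

end Pool.Agent.H61.GLB
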