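import Pool.Agent.H61.GLB.TF
import Pool.Agent.H47.GLA.UZ1

/-!
# (UB) unfolding, part 1: measurable functions
-/

set_option autoImplicit false

open NumberField NumberField.InfinitePlace NumberField.Units
  NumberField.Units.dirichletUnitTheorem MeasureTheory Set Filter Complex
open scoped nonZeroDivisors ENNReal

namespace Pool.Agent.H61.GLB

open Pool.Agent.H25.HK Pool.Agent.H23.LB Pool.Agent.H23.LC
open Pool.Agent.H28.RC (Rep ft idl)

section
open scoped Classical

variable (K : Type) [Field K] [NumberField K]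

/-- the measure on the strip -/
noncomputable def nu : Measure (logSpace K × ℝ) :=
  (volume.restrict (Fd K)).prod (volume : Measure ℝ)

/-- the logarithm of a unit -/
noncomputable def lg (u : (𝓞 K)ˣ) : logSpace K := logEmbedding K (Additive.ofMul u)

theorem shift_meas (w : logSpace K) :
    Measurable (fun p : logSpace K × ℝ => ((p.1 + w, p.2) : logSpace K × ℝ)) := by
  have : Continuous (fun p : logSpace K × ℝ => ((p.1 + w, p.2) : logSpace K × ℝ)) := by fun_prop
  exact this.measurable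

theorem unf_len (hFD : T_FD) (hUN : T_UN) [Countable (𝓞 K)ˣ] (g : logSpace K × ℝ → ℝ≥0∞)
    (hm : Measurable g) :
    ∑' u : (𝓞 K)ˣ, ∫⁻ p, g (p.1 + lg K u, p.2) ∂(nu K) =
      (torsionOrder K : ℝ≥0∞) * ∫⁻ p, g p := by
  have hg : Measurable (fun z : logSpace K => ∫⁻ τ : ℝ, g (z, τ)) :=
    hm.lintegral_prod_right'
  have h1 : ∀ u : (𝓞 K)ˣ, ∫⁻ p, g (p.1 + lg K u, p.2) ∂(nu K) =
      ∫⁻ z in Fd K, ∫⁻ τ : ℝ, g (z + lg K u, τ) := by
    intro u
    unfold nu
    rw [lintegral_prod]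
    exact (hm.comp (shift_meas K (lg K u))).aemeasurable
  have h2 : ∫⁻ p : logSpace K × ℝ, g p = ∫⁻ z : logSpace K, ∫⁻ τ : ℝ, g (z, τ) := by
    rw [Measure.volume_eq_prod, lintegral_prod _ hm.aemeasurable]
  simp only [h1, h2]
  rw [← lintegral_tsum]
  · rw [← (hFD K).2.2.2.2.1 _ hg, ← lintegral_const_mul']
    · refine lintegral_congr fun z => ?_
      exact hUN K (fun l => ∫⁻ τ : ℝ, g (z + l, τ))
    · exact ENNReal.natCast_ne_top _
  · intro u
    have : Measurable (fun z : logSpace K => z + lg K u) := by fun_prop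
    exact (hg.comp this).aemeasurable

theorem unf_int (hFD : T_FD) (hUN : T_UN) [Countable (𝓞 K)ˣ] (Q : logSpace K × ℝ → ℂ)
    (hQ : Measurable Q) (hQi : Integrable Q) :
    (∀ u : (𝓞 K)ˣ, Integrable (fun p : logSpace K × ℝ => Q (p.1 + lg K u, p.2)) (nu K)) ∧
    (Summable fun u : (𝓞 K)ˣ => ∫ p, Q (p.1 + lg K u, p.2) ∂(nu K)) ∧
    ∑' u : (𝓞 K)ˣ, ∫ p, Q (p.1 + lg K u, p.2) ∂(nu K) =
      (torsionOrder K : ℂ) * ∫ p, Q p := by
  have hn := unf_len K hFD hUN (fun p => ‖Q p‖ₑ) hQ.enorm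
  have hfin : (torsionOrder K : ℝ≥0∞) * ∫⁻ p, ‖Q p‖ₑ ≠ ∞ :=
    ENNReal.mul_ne_top (ENNReal.natCast_ne_top _) hQi.2.ne
  rw [← hn] at hfin
  have hc : ∀ u : (𝓞 K)ˣ, Measurable (fun p : logSpace K × ℝ => Q (p.1 + lg K u, p.2)) :=
    fun u => hQ.comp (shift_meas K (lg K u))
  have h1 : ∀ u : (𝓞 K)ˣ, Integrable (fun p : logSpace K × ℝ => Q (p.1 + lg K u, p.2)) (nu K) :=
    fun u => ⟨(hc u).aestronglyMeasurable, lt_top_iff_ne_top.2
      (ENNReal.ne_top_of_tsum_ne_top hfin u)⟩
  have hsR : Summable fun u : (𝓞 K)ˣ => (∫⁻ p, ‖Q (p.1 + lg K u, p.2)‖ₑ ∂(nu K)).toReal :=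
    ENNReal.summable_toReal hfin
  have hle : ∀ u : (𝓞 K)ˣ, ‖∫ p, Q (p.1 + lg K u, p.2) ∂(nu K)‖ ≤
      (∫⁻ p, ‖Q (p.1 + lg K u, p.2)‖ₑ ∂(nu K)).toReal := by
    intro u
    have h2 := norm_integral_le_integral_norm (μ := nu K)
      (fun p : logSpace K × ℝ => Q (p.1 + lg K u, p.2))
    refine h2.trans (le_of_eq ?_)
    rw [integral_norm_eq_lintegral_enorm (hc u).aestronglyMeasurable]
  have hs : Summable fun u : (𝓞 K)ˣ => ∫ p, Q (p.1 + lg K u, p.2) ∂(nu K) :=
    Summable.of_norm_bounded hsR hle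
  refine ⟨h1, hs, ?_⟩
  -- the function of `z`
  set G : logSpace K → ℂ := fun z => ∫ τ : ℝ, Q (z, τ) with hG
  have hGm : StronglyMeasurable G :=
    hQ.stronglyMeasurable.integral_prod_right'
  have hGi : Integrable G := by
    have h3 : Integrable Q ((volume : Measure (logSpace K)).prod (volume : Measure ℝ)) := hQi
    exact h3.integral_prod_left
  have h4 : ∀ u : (𝓞 K)ˣ, ∫ p, Q (p.1 + lg K u, p.2) ∂(nu K) =
      ∫ z in Fd K, G (z + lg K u) := by
    intro u
    have h5 := h1 u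
    unfold nu at h5 ⊢
    rw [integral_prod _ h5]
  have h6 : ∫ p, Q p = ∫ z, G z := by
    have h3 : Integrable Q ((volume : Measure (logSpace K)).prod (volume : Measure ℝ)) := hQi
    rw [Measure.volume_eq_prod, integral_prod _ h3]
  have h7 : ∑' u : (𝓞 K)ˣ, ∫ p, Q (p.1 + lg K u, p.2) ∂(nu K) =
      (torsionOrder K : ℂ) * ∑' l : unitLattice K, ∫ z in Fd K, G (z + l) := by
    simp only [h4]
    exact Pool.Agent.H47.GLA.tsum_units K (fun l => ∫ z in Fd K, G (z + l)) (by
      refine hs.congr fun u => ?_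
      rw [h4]
      rfl)
  rw [h7, h6]
  congr 1
  have h8 := (hFD K).2.2.2.2.2.1 G hGi
  rw [← h8.2]
  have hgm : Measurable (fun z : logSpace K => ‖G z‖ₑ) := hGm.measurable.enorm
  rw [integral_tsum]
  · intro l
    have : Measurable (fun z : logSpace K => z + (l : logSpace K)) := by fun_prop
    exact (hGm.comp_measurable this).aestronglyMeasurable
  · have : Countable (unitLattice K) := inferInstance
    rw [← lintegral_tsum]
    · have h9 := (hFD K).2.2.2.2.1 (fun z => ‖G z‖ₑ) hgm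
      rw [h9]
      exact hGi.2.ne
    · intro l
      have : Measurable (fun z : logSpace K => z + (l : logSpace K)) := by fun_prop
      exact (hgm.comp this).aemeasurable

/-! ### Bounded regions -/

theorem sum_mult_yc (τ : ℝ) (z : logSpace K) : ∑ v, (v.mult : ℝ) * yc K τ z v = 2 * τ :=
  (Pool.Agent.H87.HK.yc_main K).1 τ z

theorem sum_mult : ∑ v : InfinitePlace K, (v.mult : ℝ) = Module.finrank ℚ K := by
  have h := InfinitePlace.sum_mult_eq (K := K)
  exact_mod_cast h

theorem yc_ne (τ : ℝ) (z : logSpace K) (w : {w : InfinitePlace K // w ≠ w₀}) :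
    yc K τ z w.1 = 2 * τ / Module.finrank ℚ K + 2 * z w / w.1.mult := by
  unfold yc
  rw [dif_neg w.2]

theorem Wc_fin (δ : ℝ) (hδ : 0 ≤ δ) : volume (Wc K δ) < ⊤ := by
  have hn : (0 : ℝ) < Module.finrank ℚ K := by exact_mod_cast Module.finrank_pos
  set n : ℝ := (Module.finrank ℚ K : ℝ) with hnd
  have hsub : Wc K δ ⊆ Metric.closedBall 0 (n * δ + 2 * δ) := by
    intro p hp
    have hτ : |2 * p.2| ≤ n * δ := by
      rw [← sum_mult_yc K p.2 p.1]
      refine (Finset.abs_sum_le_sum_abs _ _).trans ?_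
      rw [hnd, ← sum_mult K, Finset.sum_mul]
      refine Finset.sum_le_sum fun v _ => ?_
      rw [abs_mul, abs_of_nonneg (Nat.cast_nonneg _)]
      exact mul_le_mul_of_nonneg_left (hp v) (Nat.cast_nonneg _)
    have hτ2 : |p.2| ≤ n * δ / 2 := by
      rw [abs_mul, abs_of_pos (zero_lt_two' ℝ)] at hτ
      linarith
    rw [mem_closedBall_zero_iff, Prod.norm_def, max_le_iff]
    constructor
    · rw [pi_norm_le_iff_of_nonneg (by positivity)]
      intro w
      have h1 := hp w.1
      rw [yc_ne, ← hnd] at h1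
      have hm : (0 : ℝ) < w.1.mult := by
        have := w.1.mult_pos
        exact_mod_cast this
      have hm2 : (w.1.mult : ℝ) ≤ 2 := by
        unfold InfinitePlace.mult
        split_ifs <;> norm_num
      have h2 : |2 * p.2 / n| ≤ δ := by
        rw [abs_div, abs_of_pos hn, div_le_iff₀ hn]
        linarith
      have h3 : |2 * p.1 w / (w.1.mult : ℝ)| ≤ 2 * δ := by
        have h4 : 2 * p.1 w / (w.1.mult : ℝ) =
            (2 * p.2 / n + 2 * p.1 w / (w.1.mult : ℝ)) - 2 * p.2 / n := by ring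
        rw [h4]
        refine (abs_sub _ _).trans ?_
        linarith
      rw [abs_div, abs_mul, abs_of_pos (zero_lt_two' ℝ), abs_of_pos hm, div_le_iff₀ hm] at h3
      rw [Real.norm_eq_abs]
      nlinarith
    · rw [Real.norm_eq_abs]
      have : 0 ≤ n * δ := by positivity
      linarith
  exact (measure_mono hsub).trans_lt
    (by
      have := vol_haar K
      exact (isCompact_closedBall _ _).measure_lt_top)

theorem E_fin (M : FI K) (x : K) (δ : ℝ) (hδ : 0 ≤ δ) : volume (E K M x δ) < ⊤ := by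
  by_cases hne : (E K M x δ).Nonempty
  · obtain ⟨p₀, hp₀⟩ := hne
    have hsub : E K M x δ ⊆ (fun w => w + -p₀) ⁻¹' (Wc K (4 * δ)) := by
      intro p hp v
      have h1 := hp v
      have h2 := hp₀ v
      have e1 : yM K M p.2 p.1 v =
          yM K M p₀.2 p₀.1 v + yc K (p + -p₀).2 (p + -p₀).1 v := by
        rw [← yM_add]
        have e2 : p₀.2 + (p + -p₀).2 = p.2 := by
          simp only [Prod.snd_add, Prod.snd_neg]
          ring
        have e3 : p₀.1 + (p + -p₀).1 = p.1 := by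
          simp only [Prod.fst_add, Prod.fst_neg]
          abel
        rw [e2, e3]
      rw [e1] at h1
      change |yc K (p + -p₀).2 (p + -p₀).1 v| ≤ 4 * δ
      rw [abs_le] at h1 h2 ⊢
      constructor <;> linarith [h1.1, h1.2, h2.1, h2.2]
    refine (measure_mono hsub).trans_lt ?_
    have := vol_haar K
    rw [measure_preimage_add_right volume (-p₀)]
    exact Wc_fin K (4 * δ) (by positivity)
  · rw [not_nonempty_iff_eq_empty.1 hne, measure_empty]
    exact ENNReal.zero_lt_top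

end

end Pool.Agent.H61.GLB
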