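import Pool.Agent.H61.GLB.UB1

/-!
# (UB) unfolding, part 2: the angles and the shift
-/

set_option autoImplicit false

open NumberField NumberField.InfinitePlace NumberField.Units
  NumberField.Units.dirichletUnitTheorem MeasureTheory Set Filter Complex
open scoped nonZeroDivisors ENNReal

namespace Pool.Agent.H61.GLB

open Pool.Agent.H25.HK Pool.Agent.H23.LB Pool.Agent.H23.LC
open Pool.Agent.H28.RC (Rep ft idl)

section
open scoped Classical

variable (K : Type) [Field K] [NumberField K]

/-- the integral over the angles -/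
noncomputable def Ps (δ : ℝ) (k : InfinitePlace K → ℤ) (x : K) (y : InfinitePlace K → ℝ) : ℂ :=
  ∫ θ in An K, ek k θ * if Bp δ x y θ then 1 else 0

omit [NumberField K] in
theorem an_norm (v : InfinitePlace K) (θ : ℝ) : ‖an v θ‖ = 1 := by
  unfold an
  split_ifs
  · simp
  · simp
  · exact Complex.norm_exp_ofReal_mul_I θ

omit [NumberField K] in
theorem an_meas (v : InfinitePlace K) : Measurable (an v) := by
  unfold an
  by_cases h : v.IsReal
  · simp only [if_pos h]
    exact Measurable.ite measurableSet_Iio measurable_const measurable_const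
  · simp only [if_neg h]
    have : Continuous (fun θ : ℝ => cexp (θ * I)) := by fun_prop
    exact this.measurable

theorem ek_norm (k : InfinitePlace K → ℤ) (θ : InfinitePlace K → ℝ) : ‖ek k θ‖ = 1 := by
  unfold ek
  rw [norm_prod]
  refine Finset.prod_eq_one fun v _ => ?_
  rw [norm_zpow, an_norm, one_zpow]

omit [NumberField K] in
theorem an_zpow_meas (v : InfinitePlace K) (m : ℤ) : Measurable (fun θ : ℝ => an v θ ^ m) :=
  (an_meas K v).pow_const m

theorem ek_meas (k : InfinitePlace K → ℤ) : Measurable (ek (K := K) k) := by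
  unfold ek
  refine Finset.measurable_prod _ fun v _ => ?_
  exact (an_zpow_meas K v (-k v)).comp (measurable_pi_apply v)

theorem ind_prod (P : InfinitePlace K → Prop) :
    (if ∀ v, P v then (1 : ℂ) else 0) = ∏ v, if P v then (1 : ℂ) else 0 := by
  by_cases h : ∀ v, P v
  · rw [if_pos h]
    exact (Finset.prod_eq_one fun v _ => if_pos (h v)).symm
  · rw [if_neg h]
    obtain ⟨v, hv⟩ := not_forall.1 h
    exact (Finset.prod_eq_zero (Finset.mem_univ v) (if_neg hv)).symm

theorem Ps_prod (δ : ℝ) (k : InfinitePlace K → ℤ) (x : K) (y : InfinitePlace K → ℝ) :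
    Ps K δ k x y = ∏ v : InfinitePlace K, ∫ θ in Icc (0 : ℝ) (2 * Real.pi), an v θ ^ (-k v) *
      (if ‖v.embedding x * ((Real.exp (y v / 2) : ℝ) : ℂ) * an v θ - 1‖ ≤ δ then (1 : ℂ) else 0) := by
  unfold Ps An
  have h1 : (volume : Measure (InfinitePlace K → ℝ)).restrict
      (Set.univ.pi fun _ => Set.Icc 0 (2 * Real.pi)) =
      Measure.pi (fun _ : InfinitePlace K => (volume : Measure ℝ).restrict (Icc 0 (2 * Real.pi))) := by
    rw [volume_pi, Measure.restrict_pi_pi]
  rw [h1, ← integral_fintype_prod_eq_prod]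
  refine integral_congr_ae (ae_of_all _ fun θ => ?_)
  simp only
  rw [Finset.prod_mul_distrib]
  unfold ek Bp
  congr 1
  convert ind_prod K
    (fun v => ‖v.embedding x * ((Real.exp (y v / 2) : ℝ) : ℂ) * an v (θ v) - 1‖ ≤ δ)

theorem ang (hAN : U_AN) (δ : ℝ) (k : InfinitePlace K → ℤ) (x : K) (hx : x ≠ 0)
    (y : InfinitePlace K → ℝ) :
    Ps K δ k x y = ag k x * Ps K δ k 1 (fun v => y v + 2 * Real.log (v x)) := by
  rw [Ps_prod, Ps_prod]
  unfold ag
  rw [← Finset.prod_mul_distrib]
  refine Finset.prod_congr rfl fun v _ => ?_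
  have h1 := (hAN K v x hx (k v) δ (Real.exp (y v / 2)) (Real.exp_pos _)).1
  rw [h1]
  congr 1
  refine integral_congr_ae (ae_of_all _ fun θ => ?_)
  simp only
  have hv : 0 < v x := by
    rw [InfinitePlace.pos_iff]
    exact hx
  have h2 : Real.exp ((y v + 2 * Real.log (v x)) / 2) = v x * Real.exp (y v / 2) := by
    rw [add_div, mul_div_cancel_left₀ _ (two_ne_zero), Real.exp_add, Real.exp_log hv]
    ring
  rw [h2, map_one, one_mul]

omit [NumberField K] in
theorem Bp_log (δ : ℝ) (hδ : δ ≤ 1 / 8) (x : K) (hx : x ≠ 0) (y : InfinitePlace K → ℝ)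
    (θ : InfinitePlace K → ℝ) (h : Bp δ x y θ) : Bt (2 * δ) x y := by
  intro v
  have h1 := h v
  have hv : 0 < v x := by
    rw [InfinitePlace.pos_iff]
    exact hx
  have hδ0 : 0 ≤ δ := (norm_nonneg _).trans h1
  have h2 : |v x * Real.exp (y v / 2) - 1| ≤ δ := by
    have h3 := abs_norm_sub_norm_le (v.embedding x * ((Real.exp (y v / 2) : ℝ) : ℂ) * an v (θ v)) 1
    rw [norm_mul, norm_mul, an_norm, norm_one, mul_one, Complex.norm_real,
      Real.norm_of_nonneg (Real.exp_pos _).le, norm_embedding_eq] at h3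
    exact h3.trans h1
  set s := v x * Real.exp (y v / 2) with hs
  have hs0 : 0 < s := mul_pos hv (Real.exp_pos _)
  have hlog : Real.log (v x) + y v / 2 = Real.log s := by
    rw [hs, Real.log_mul hv.ne' (Real.exp_pos _).ne', Real.log_exp]
  rw [hlog, abs_le]
  rw [abs_le] at h2
  have h4 := Real.log_le_sub_one_of_pos hs0
  have h5 := Real.one_sub_inv_le_log_of_pos hs0
  constructor
  · have h6 : -(2 * δ) ≤ 1 - s⁻¹ := by
      have h7 : s⁻¹ ≤ 1 + 2 * δ := by
        rw [inv_le_comm₀ hs0 (by linarith)]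
        have h8 : (1 + 2 * δ)⁻¹ ≤ 1 - δ := by
          rw [inv_le_comm₀ (by linarith) (by linarith), inv_eq_one_div, div_le_iff₀ (by linarith)]
          nlinarith
        linarith
      linarith
    linarith
  · linarith

theorem Bp_meas (M : FI K) (δ : ℝ) (x : K) :
    MeasurableSet {p : logSpace K × ℝ × (InfinitePlace K → ℝ) |
      Bp δ x (yM K M p.2.1 p.1) p.2.2} := by
  have h : {p : logSpace K × ℝ × (InfinitePlace K → ℝ) | Bp δ x (yM K M p.2.1 p.1) p.2.2} =
      ⋂ v : InfinitePlace K, {p : logSpace K × ℝ × (InfinitePlace K → ℝ) |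
        ‖v.embedding x * ((Real.exp (yM K M p.2.1 p.1 v / 2) : ℝ) : ℂ) * an v (p.2.2 v) - 1‖
          ≤ δ} := by
    ext p
    simp only [Bp, mem_ofPred_eq, mem_iInter]
  rw [h]
  refine MeasurableSet.iInter fun v => measurableSet_le ?_ measurable_const
  have h1 : Measurable (fun p : logSpace K × ℝ × (InfinitePlace K → ℝ) =>
      yM K M p.2.1 p.1 v) := by
    have h2 : Continuous (fun p : logSpace K × ℝ × (InfinitePlace K → ℝ) =>
      yM K M p.2.1 p.1) := by
      have h3 := yM_cont K M
      have h4 : Continuous (fun p : logSpace K × ℝ × (InfinitePlace K → ℝ) =>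
        ((p.1, p.2.1) : logSpace K × ℝ)) := by fun_prop
      exact h3.comp h4
    exact ((continuous_apply v).comp h2).measurable
  have h5 : Measurable (fun p : logSpace K × ℝ × (InfinitePlace K → ℝ) => an v (p.2.2 v)) :=
    (an_meas K v).comp ((measurable_pi_apply v).comp (measurable_snd.comp measurable_snd))
  have h6 : Measurable (fun p : logSpace K × ℝ × (InfinitePlace K → ℝ) =>
      ((Real.exp (yM K M p.2.1 p.1 v / 2) : ℝ) : ℂ)) :=
    Complex.measurable_ofReal.comp (Real.measurable_exp.comp (h1.div_const 2))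
  exact (((h6.const_mul _).mul h5).sub_const 1).norm

/-- the logarithmic coordinates of a nonzero element -/
theorem exists_log (x : K) (hx : x ≠ 0) : ∃ z : logSpace K, ∀ v : InfinitePlace K,
    yc K (Real.log ((|Algebra.norm ℚ x| : ℚ) : ℝ)) z v = 2 * Real.log (v x) := by
  set τ := Real.log ((|Algebra.norm ℚ x| : ℚ) : ℝ) with hτ
  have hn : (0 : ℝ) < Module.finrank ℚ K := by exact_mod_cast Module.finrank_pos
  set n : ℝ := (Module.finrank ℚ K : ℝ) with hnd
  have hsum : ∑ v : InfinitePlace K, (v.mult : ℝ) * Real.log (v x) = τ := by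
    have h1 := InfinitePlace.prod_eq_abs_norm (K := K) x
    have h2 : Real.log (∏ w : InfinitePlace K, w x ^ w.mult) = τ := by
      rw [h1, hτ]
    rw [Real.log_prod] at h2
    · rw [← h2]
      refine Finset.sum_congr rfl fun v _ => ?_
      rw [Real.log_pow]
    · intro v _
      have : 0 < v x := by
        rw [InfinitePlace.pos_iff]
        exact hx
      positivity
  refine ⟨fun w => (w.1.mult : ℝ) * (Real.log (w.1 x) - τ / n), fun v => ?_⟩
  have hm : ∀ v : InfinitePlace K, (0 : ℝ) < v.mult := fun v => by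
    have := v.mult_pos
    exact_mod_cast this
  unfold yc
  rw [← hnd]
  by_cases h : v = w₀
  · rw [dif_pos h]
    have hs2 : ∑ w : {w : InfinitePlace K // w ≠ w₀},
        (w.1.mult : ℝ) * (Real.log (w.1 x) - τ / n) =
        (τ - ((w₀ : InfinitePlace K).mult : ℝ) * Real.log ((w₀ : InfinitePlace K) x)) -
        (n - ((w₀ : InfinitePlace K).mult : ℝ)) * (τ / n) := by
      have h3 : ∀ g : InfinitePlace K → ℝ, ∑ w : {w : InfinitePlace K // w ≠ w₀}, g w.1 =
          ∑ v, g v - g w₀ := by
        intro g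
        rw [← Fintype.sum_subtype_add_sum_subtype (fun w : InfinitePlace K => w ≠ w₀) g]
        have h4 : ∑ w : {w : InfinitePlace K // ¬ w ≠ w₀}, g w.1 = g w₀ := by
          rw [Finset.sum_subtype (s := {w₀}) (p := fun w : InfinitePlace K => ¬ w ≠ w₀)
            (fun w => by simp) g |>.symm, Finset.sum_singleton]
        rw [h4]
        ring
      have h5 := h3 (fun v => (v.mult : ℝ) * (Real.log (v x) - τ / n))
      rw [h5]
      simp only [mul_sub, Finset.sum_sub_distrib, hsum, ← Finset.sum_mul, sum_mult K]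
      rw [← hnd]
      ring
    rw [hs2, h]
    have := hm w₀
    field_simp
    ring
  · rw [dif_neg h]
    have := hm v
    field_simp
    ring

end

end Pool.Agent.H61.GLB
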