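import Pool.Agent.H61.GLB.UB2
import Pool.Agent.H92.RC.ID
import Pool.Agent.H41.HK.UN
import Pool.Agent.H66.HK.FD

/-!
# (UB) unfolding, part 3: one class
-/

set_option autoImplicit false

open NumberField NumberField.InfinitePlace NumberField.Units
  NumberField.Units.dirichletUnitTheorem MeasureTheory Set Filter Complex
open scoped nonZeroDivisors ENNReal

namespace Pool.Agent.H61.GLB

open Pool.Agent.H25.HK Pool.Agent.H23.LB Pool.Agent.H23.LC
open Pool.Agent.H28.RC (Rep ft idl)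
open Pool.Agent.H19.RC (Par)

section
open scoped Classical

variable (K : Type) [Field K] [NumberField K]

theorem countable_U : Countable (𝓞 K)ˣ := by
  have := countable_K K
  refine Function.Injective.countable (f := fun u : (𝓞 K)ˣ => (u : K)) fun u v h => ?_
  have h1 : ((u : 𝓞 K) : K) = ((v : 𝓞 K) : K) := h
  exact Units.ext (RingOfIntegers.ext h1)

theorem par_exists (M : FI K) (hM : M ≠ 0) : ∃ X : {I : Ideal (𝓞 K) // Pri K M I} → K,
    Par M X ∧ ∀ I, ((|Algebra.norm ℚ (X I)| : ℚ) : ℝ) =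
        (Ideal.absNorm I.1 : ℝ) * (FractionalIdeal.absNorm M : ℝ) := by
  obtain ⟨X, hX, hX1, hXM, hXu⟩ := Pool.Agent.H19.RC.bi2 K M hM
  exact ⟨X, ⟨hX, fun J => (hX1 J).1, hXM, hXu⟩, fun J => (hX1 J).2⟩

/-- the ideals of the class with norm in the block -/
abbrev TM (Y : ℝ) (M : FI K) : Type := {J : {I : Ideal (𝓞 K) // Pri K M I} //
  Y ≤ (Ideal.absNorm J.1 : ℝ) ∧ (Ideal.absNorm J.1 : ℝ) < 2 * Y}

theorem TM_finite (Y : ℝ) (M : FI K) : Finite (TM K Y M) := by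
  have h1 : {I : Ideal (𝓞 K) | Ideal.absNorm I ≤ ⌈2 * Y⌉₊}.Finite :=
    Ideal.finite_setOfPred_absNorm_le _
  have : Finite {I : Ideal (𝓞 K) | Ideal.absNorm I ≤ ⌈2 * Y⌉₊} := h1
  refine Finite.of_injective (β := {I : Ideal (𝓞 K) | Ideal.absNorm I ≤ ⌈2 * Y⌉₊})
    (fun J => ⟨J.1.1, ?_⟩) fun J J' h => ?_
  · have h2 : (Ideal.absNorm J.1.1 : ℝ) ≤ (⌈2 * Y⌉₊ : ℝ) := J.2.2.le.trans (Nat.le_ceil _)
    exact_mod_cast h2
  · have h3 : J.1.1 = J'.1.1 := by
      have h4 := Subtype.ext_iff.1 h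
      exact h4
    exact Subtype.ext (Subtype.ext h3)

variable {K}

/-- the parametrization of the block -/
noncomputable def eT (Y : ℝ) (M : FI K) (hM : M ≠ 0) {X : {I : Ideal (𝓞 K) // Pri K M I} → K}
    (hP : Par M X) : (TM K Y M × (𝓞 K)ˣ) ≃ {x : K // Bl Y M x} :=
  Equiv.ofBijective (fun p => ⟨(p.2 : K) * X p.1.1, hP.XM p.1.1 p.2, hP.ne (p.1.1, p.2), by
      have h := hP.idl_eq Pool.Agent.H92.RC.pf_ID hM (p.1.1, p.2)
      simp only at h
      rw [h]
      exact p.1.2⟩) (by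
    constructor
    · rintro ⟨J, u⟩ ⟨J', u'⟩ h
      have h1 : (u : K) * X J.1 = (u' : K) * X J'.1 := congrArg Subtype.val h
      have h2 := (hP.un _ (hP.XM J.1 u) (hP.ne (J.1, u))).unique
        (y₁ := (J.1, u)) (y₂ := (J'.1, u')) rfl h1
      have h3 := (Prod.ext_iff.1 h2).1
      have h4 := (Prod.ext_iff.1 h2).2
      simp only at h3 h4
      rw [Prod.mk.injEq]
      exact ⟨Subtype.ext h3, h4⟩
    · rintro ⟨x, hx1, hx2, hx3, hx4⟩
      obtain ⟨p, hp, -⟩ := hP.un x hx1 hx2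
      have h := hP.idl_eq Pool.Agent.H92.RC.pf_ID hM p
      rw [← hp] at h
      rw [h] at hx3 hx4
      exact ⟨(⟨p.1, hx3, hx4⟩, p.2), Subtype.ext hp.symm⟩)

theorem eT_apply (Y : ℝ) (M : FI K) (hM : M ≠ 0) {X : {I : Ideal (𝓞 K) // Pri K M I} → K}
    (hP : Par M X) (p : TM K Y M × (𝓞 K)ˣ) :
    ((eT Y M hM hP p : {x : K // Bl Y M x}) : K) = (p.2 : K) * X p.1.1 := rfl

variable (K)

/-- the total mass is finite -/
theorem fin_tot (Y δ : ℝ) (hδ : 0 ≤ δ) (M : FI K) (hM : M ≠ 0) (b : Ideal (𝓞 K) → ℂ) :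
    ∑' x : {x : K // Bl Y M x}, ‖b (idl K M x.1)‖ₑ * nu K (E K M x.1 δ) ≠ ∞ := by
  obtain ⟨X, hP, -⟩ := par_exists K M hM
  have hcu := countable_U K
  have hf := TM_finite K Y M
  rw [← (eT Y M hM hP).tsum_eq, ENNReal.tsum_prod']
  have h1 : ∀ J : TM K Y M, ∑' u : (𝓞 K)ˣ,
      ‖b (idl K M ((eT Y M hM hP (J, u) : {x : K // Bl Y M x}) : K))‖ₑ *
        nu K (E K M ((eT Y M hM hP (J, u) : {x : K // Bl Y M x}) : K) δ) =
      ‖b J.1.1‖ₑ * ((torsionOrder K : ℝ≥0∞) * volume (E K M (X J.1) δ)) := by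
    intro J
    have h2 : ∀ u : (𝓞 K)ˣ, ‖b (idl K M ((eT Y M hM hP (J, u) : {x : K // Bl Y M x}) : K))‖ₑ *
        nu K (E K M ((eT Y M hM hP (J, u) : {x : K // Bl Y M x}) : K) δ) =
        ‖b J.1.1‖ₑ * ∫⁻ p, (E K M (X J.1) δ).indicator 1 (p.1 + lg K u, p.2) ∂(nu K) := by
      intro u
      rw [eT_apply, hP.idl_eq Pool.Agent.H92.RC.pf_ID hM (J.1, u)]
      congr 1
      rw [← lintegral_indicator_one (E_meas K M _ δ)]
      refine lintegral_congr fun p => ?_
      rw [indicator_apply, indicator_apply]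
      have h3 := E_unit K M (X J.1) (hP.X0 J.1) δ u p.1 p.2
      have h4 : ((p.1 + lg K u, p.2) ∈ E K M (X J.1) δ) ↔ p ∈ E K M ((u : K) * X J.1) δ := h3
      by_cases h5 : p ∈ E K M ((u : K) * X J.1) δ
      · rw [if_pos h5, if_pos (h4.2 h5)]
        rfl
      · rw [if_neg h5, if_neg (fun h => h5 (h4.1 h))]
    simp only [h2]
    rw [ENNReal.tsum_mul_left, unf_len K Pool.Agent.H66.HK.fd Pool.Agent.H41.HK.un
      ((E K M (X J.1) δ).indicator 1) (measurable_one.indicator (E_meas K M _ δ)),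
      lintegral_indicator_one (E_meas K M _ δ)]
  simp only [h1]
  have := Fintype.ofFinite (TM K Y M)
  rw [tsum_fintype]
  refine ENNReal.sum_ne_top.2 fun J _ => ?_
  refine ENNReal.mul_ne_top enorm_ne_top (ENNReal.mul_ne_top (ENNReal.natCast_ne_top _) ?_)
  exact (E_fin K M _ δ hδ).ne

/-! ### The three variables -/

theorem An_meas : MeasurableSet (An K) :=
  MeasurableSet.univ_pi fun _ => measurableSet_Icc

theorem An_fin : volume (An K) < ⊤ := by
  unfold An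
  exact (isCompact_univ_pi fun _ => isCompact_Icc).measure_lt_top

/-- the measure in three variables -/
noncomputable def m3 : Measure ((logSpace K × ℝ) × (InfinitePlace K → ℝ)) :=
  (nu K).prod (volume.restrict (An K))

theorem mp3 : MeasurePreserving (MeasurableEquiv.prodAssoc :
    (logSpace K × ℝ) × (InfinitePlace K → ℝ) ≃ᵐ logSpace K × ℝ × (InfinitePlace K → ℝ))
    (m3 K) (volume.restrict (Fd K ×ˢ (univ : Set ℝ) ×ˢ An K)) := by
  have h := measurePreserving_prodAssoc (volume.restrict (Fd K)) (volume : Measure ℝ)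
    ((volume : Measure (InfinitePlace K → ℝ)).restrict (An K))
  have h2 : (volume.restrict (Fd K ×ˢ (univ : Set ℝ) ×ˢ An K) :
      Measure (logSpace K × ℝ × (InfinitePlace K → ℝ))) =
      (volume.restrict (Fd K)).prod ((volume : Measure ℝ).prod
        ((volume : Measure (InfinitePlace K → ℝ)).restrict (An K))) := by
    rw [Measure.volume_eq_prod, Measure.volume_eq_prod, ← Measure.prod_restrict,
      ← Measure.prod_restrict, Measure.restrict_univ]
  rw [h2]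
  exact h

theorem int3 (F : logSpace K × ℝ × (InfinitePlace K → ℝ) → ℂ) :
    ∫ p in Fd K ×ˢ (univ : Set ℝ) ×ˢ An K, F p = ∫ q, F (q.1.1, q.1.2, q.2) ∂(m3 K) :=
  ((mp3 K).integral_comp' F).symm

theorem lint3 (F : logSpace K × ℝ × (InfinitePlace K → ℝ) → ℝ≥0∞) :
    ∫⁻ p in Fd K ×ˢ (univ : Set ℝ) ×ˢ An K, F p = ∫⁻ q, F (q.1.1, q.1.2, q.2) ∂(m3 K) :=
  ((mp3 K).lintegral_comp_emb (MeasurableEquiv.prodAssoc.measurableEmbedding) F).symm

end

end Pool.Agent.H61.GLB
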