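import Pool.Agent.H61.GLB.UB3

/-!
# (UB) unfolding, part 4: the integrals of one point
-/

set_option autoImplicit false

open NumberField NumberField.InfinitePlace NumberField.Units
  NumberField.Units.dirichletUnitTheorem MeasureTheory Set Filter Complex
open scoped nonZeroDivisors ENNReal

namespace Pool.Agent.H61.GLB

open Pool.Agent.H25.HK Pool.Agent.H23.LB Pool.Agent.H23.LC
open Pool.Agent.H28.RC (Rep ft idl)
open Pool.Agent.H19.RC (Par)

section
open scoped Classical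

variable (K : Type) [Field K] [NumberField K]

instance nu_sf : SFinite (nu K) := by
  unfold nu
  infer_instance

/-- the character in two variables -/
noncomputable def ct (ν : InfinitePlace K → ℝ) (t : ℝ) (p : logSpace K × ℝ) : ℂ :=
  ec K ν p.1 * cexp (t * p.2 * I)

theorem ec_norm (ν : InfinitePlace K → ℝ) (z : logSpace K) : ‖ec K ν z‖ = 1 := by
  unfold ec
  have h : -((pr K ν z : ℝ) : ℂ) * I = ((-(pr K ν z) : ℝ) : ℂ) * I := by
    push_cast
    ring
  rw [h, Complex.norm_exp_ofReal_mul_I]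

theorem ct_norm (ν : InfinitePlace K → ℝ) (t : ℝ) (p : logSpace K × ℝ) : ‖ct K ν t p‖ = 1 := by
  unfold ct
  rw [norm_mul, ec_norm, one_mul]
  have h : (t : ℂ) * p.2 * I = ((t * p.2 : ℝ) : ℂ) * I := by
    push_cast
    ring
  rw [h, Complex.norm_exp_ofReal_mul_I]

theorem ec_cont (ν : InfinitePlace K → ℝ) : Continuous (ec K ν) := by
  unfold ec pr
  fun_prop

theorem ct_cont (ν : InfinitePlace K → ℝ) (t : ℝ) : Continuous (ct K ν t) := by
  have h := ec_cont K ν
  unfold ct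
  fun_prop

theorem pr_add (ν : InfinitePlace K → ℝ) (z z' : logSpace K) :
    pr K ν (z + z') = pr K ν z + pr K ν z' := by
  unfold pr
  rw [← Finset.sum_add_distrib]
  refine Finset.sum_congr rfl fun w _ => ?_
  rw [Pi.add_apply]
  ring

theorem ec_add (ν : InfinitePlace K → ℝ) (z z' : logSpace K) :
    ec K ν (z + z') = ec K ν z * ec K ν z' := by
  unfold ec
  rw [pr_add, ← Complex.exp_add]
  congr 1
  push_cast
  ring

/-- the indicator of the thin region -/
noncomputable def bi (M : FI K) (δ : ℝ) (x : K) (q : (logSpace K × ℝ) × (InfinitePlace K → ℝ)) :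
    ℂ := if Bp δ x (yM K M q.1.2 q.1.1) q.2 then 1 else 0

theorem bi_meas (M : FI K) (δ : ℝ) (x : K) : Measurable (bi K M δ x) := by
  unfold bi
  refine Measurable.ite ?_ measurable_const measurable_const
  have h := Bp_meas K M δ x
  have h2 : Measurable (fun q : (logSpace K × ℝ) × (InfinitePlace K → ℝ) =>
      ((q.1.1, q.1.2, q.2) : logSpace K × ℝ × (InfinitePlace K → ℝ))) := by
    have : Continuous (fun q : (logSpace K × ℝ) × (InfinitePlace K → ℝ) =>
      ((q.1.1, q.1.2, q.2) : logSpace K × ℝ × (InfinitePlace K → ℝ))) := by fun_prop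
    exact this.measurable
  exact h2 h

/-- the integrand in three variables -/
noncomputable def F3 (M : FI K) (δ : ℝ) (k : InfinitePlace K → ℤ) (ν : InfinitePlace K → ℝ)
    (t : ℝ) (x : K) (q : (logSpace K × ℝ) × (InfinitePlace K → ℝ)) : ℂ :=
  ct K ν t q.1 * (ek k q.2 * bi K M δ x q)

theorem F3_meas (M : FI K) (δ : ℝ) (k : InfinitePlace K → ℤ) (ν : InfinitePlace K → ℝ)
    (t : ℝ) (x : K) : Measurable (F3 K M δ k ν t x) := by
  unfold F3
  exact ((ct_cont K ν t).measurable.comp measurable_fst).mul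
    (((ek_meas K k).comp measurable_snd).mul (bi_meas K M δ x))

theorem F3_le (M : FI K) (δ : ℝ) (hδ : δ ≤ 1 / 8) (k : InfinitePlace K → ℤ)
    (ν : InfinitePlace K → ℝ) (t : ℝ) (x : K) (hx : x ≠ 0)
    (q : (logSpace K × ℝ) × (InfinitePlace K → ℝ)) :
    ‖F3 K M δ k ν t x q‖ₑ ≤ (E K M x (2 * δ)).indicator 1 q.1 := by
  unfold F3 bi
  by_cases h : Bp δ x (yM K M q.1.2 q.1.1) q.2
  · have h1 : q.1 ∈ E K M x (2 * δ) := Bp_log K δ hδ x hx _ _ h
    rw [if_pos h, indicator_of_mem h1, mul_one, ← ofReal_norm, norm_mul, ct_norm, ek_norm]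
    simp
  · rw [if_neg h, mul_zero, mul_zero, enorm_zero]
    exact zero_le

theorem F3_lint (M : FI K) (δ : ℝ) (hδ : δ ≤ 1 / 8) (k : InfinitePlace K → ℤ)
    (ν : InfinitePlace K → ℝ) (t : ℝ) (x : K) (hx : x ≠ 0) :
    ∫⁻ q, ‖F3 K M δ k ν t x q‖ₑ ∂(m3 K) ≤ volume (An K) * nu K (E K M x (2 * δ)) := by
  refine (lintegral_mono (F3_le K M δ hδ k ν t x hx)).trans (le_of_eq ?_)
  unfold m3
  have hm : Measurable (fun q : (logSpace K × ℝ) × (InfinitePlace K → ℝ) =>
      (E K M x (2 * δ)).indicator (1 : logSpace K × ℝ → ℝ≥0∞) q.1) :=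
    (measurable_one.indicator (E_meas K M x (2 * δ))).comp measurable_fst
  rw [lintegral_prod _ hm.aemeasurable]
  simp only [lintegral_const, Measure.restrict_apply_univ]
  rw [lintegral_mul_const _ (measurable_one.indicator (E_meas K M x (2 * δ))),
    lintegral_indicator_one (E_meas K M x (2 * δ)), mul_comm]

theorem nu_le (s : Set (logSpace K × ℝ)) : nu K s ≤ volume s := by
  unfold nu
  rw [Measure.volume_eq_prod]
  have h : (volume.restrict (Fd K)).prod (volume : Measure ℝ) ≤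
      (volume : Measure (logSpace K)).prod (volume : Measure ℝ) :=
    Measure.prod_mono Measure.restrict_le_self le_rfl
  exact h s

theorem F3_int (M : FI K) (δ : ℝ) (hδ0 : 0 < δ) (hδ : δ ≤ 1 / 8) (k : InfinitePlace K → ℤ)
    (ν : InfinitePlace K → ℝ) (t : ℝ) (x : K) (hx : x ≠ 0) :
    Integrable (F3 K M δ k ν t x) (m3 K) := by
  refine ⟨(F3_meas K M δ k ν t x).aestronglyMeasurable, ?_⟩
  refine lt_of_le_of_lt (F3_lint K M δ hδ k ν t x hx) (ENNReal.mul_lt_top (An_fin K) ?_)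
  exact (nu_le K _).trans_lt (E_fin K M x (2 * δ) (by linarith))

/-- the integral of one point -/
noncomputable def Jx (M : FI K) (δ : ℝ) (k : InfinitePlace K → ℤ) (ν : InfinitePlace K → ℝ)
    (t : ℝ) (x : K) : ℂ := ∫ q, F3 K M δ k ν t x q ∂(m3 K)

theorem Jx_eq (M : FI K) (δ : ℝ) (hδ0 : 0 < δ) (hδ : δ ≤ 1 / 8) (k : InfinitePlace K → ℤ)
    (ν : InfinitePlace K → ℝ) (t : ℝ) (x : K) (hx : x ≠ 0) :
    Jx K M δ k ν t x = ∫ p, ct K ν t p * Ps K δ k x (yM K M p.2 p.1) ∂(nu K) := by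
  have h := F3_int K M δ hδ0 hδ k ν t x hx
  unfold Jx
  unfold m3 at h ⊢
  rw [integral_prod _ h]
  refine integral_congr_ae (ae_of_all _ fun p => ?_)
  simp only [F3, bi]
  rw [integral_const_mul]
  rfl

/-! ### The integrand after the shift by a point -/

/-- the integrand after the shift by `x` -/
noncomputable def Q2 (M : FI K) (δ : ℝ) (k : InfinitePlace K → ℤ) (ν : InfinitePlace K → ℝ)
    (t : ℝ) (x : K) (p : logSpace K × ℝ) : ℂ :=
  ct K ν t p * Ps K δ k 1 (fun v => yM K M p.2 p.1 v + 2 * Real.log (v x))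

theorem Q2_eq (hAN : U_AN) (hAG : U_AG) (M : FI K) (δ : ℝ) (k : InfinitePlace K → ℤ)
    (ν : InfinitePlace K → ℝ) (t : ℝ) (x : K) (hx : x ≠ 0) (p : logSpace K × ℝ) :
    Q2 K M δ k ν t x p = (starRingEnd ℂ) (ag k x) * ∫ θ in An K, F3 K M δ k ν t x (p, θ) := by
  have h1 : ∫ θ in An K, F3 K M δ k ν t x (p, θ) =
      ct K ν t p * Ps K δ k x (yM K M p.2 p.1) := by
    simp only [F3, bi]
    rw [integral_const_mul]
    rfl
  have h2 : (starRingEnd ℂ) (ag k x) * ag k x = 1 := by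
    rw [mul_comm, Complex.mul_conj, Complex.normSq_eq_norm_sq, (hAG K k).2.1 x hx]
    norm_num
  rw [h1, ang K hAN δ k x hx]
  unfold Q2
  linear_combination (-(ct K ν t p * Ps K δ k 1 fun v => yM K M p.2 p.1 v +
    2 * Real.log (v x))) * h2

theorem Q2_meas (hAN : U_AN) (hAG : U_AG) (M : FI K) (δ : ℝ) (k : InfinitePlace K → ℤ)
    (ν : InfinitePlace K → ℝ) (t : ℝ) (x : K) (hx : x ≠ 0) : Measurable (Q2 K M δ k ν t x) := by
  have h : Q2 K M δ k ν t x = fun p => (starRingEnd ℂ) (ag k x) *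
      ∫ θ in An K, F3 K M δ k ν t x (p, θ) := funext (Q2_eq K hAN hAG M δ k ν t x hx)
  rw [h]
  exact ((F3_meas K M δ k ν t x).stronglyMeasurable.integral_prod_right').measurable.const_mul _

theorem Q2_int (hAN : U_AN) (hAG : U_AG) (M : FI K) (δ : ℝ) (hδ0 : 0 < δ) (hδ : δ ≤ 1 / 8)
    (k : InfinitePlace K → ℤ) (ν : InfinitePlace K → ℝ) (t : ℝ) (x : K) (hx : x ≠ 0) :
    Integrable (Q2 K M δ k ν t x) := by
  refine ⟨(Q2_meas K hAN hAG M δ k ν t x hx).aestronglyMeasurable, ?_⟩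
  have h1 : ∀ p, ‖Q2 K M δ k ν t x p‖ₑ ≤
      volume (An K) * (E K M x (2 * δ)).indicator 1 p := by
    intro p
    rw [Q2_eq K hAN hAG M δ k ν t x hx, enorm_mul]
    have h2 : ‖(starRingEnd ℂ) (ag k x)‖ₑ = 1 := by
      rw [← ofReal_norm, RCLike.norm_conj, (hAG K k).2.1 x hx, ENNReal.ofReal_one]
    rw [h2, one_mul]
    refine (enorm_integral_le_lintegral_enorm _).trans ?_
    refine (lintegral_mono (fun θ => F3_le K M δ hδ k ν t x hx (p, θ))).trans (le_of_eq ?_)
    simp only [lintegral_const, Measure.restrict_apply_univ]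
    exact mul_comm _ _
  refine lt_of_le_of_lt (lintegral_mono h1) ?_
  rw [lintegral_const_mul' _ _ (An_fin K).ne, lintegral_indicator_one (E_meas K M x (2 * δ))]
  exact ENNReal.mul_lt_top (An_fin K) (E_fin K M x (2 * δ) (by linarith))

/-- the integral over the whole space -/
theorem Q2_val (hPU : T_PU) (M : FI K) (δ : ℝ) (k : InfinitePlace K → ℤ)
    (ν : InfinitePlace K → ℝ) (hν : ∑ v, (v.mult : ℝ) * ν v = 0) (t : ℝ) (x : K) (hx : x ≠ 0)
    (N : ℕ) (hN : 0 < N) (hM : 0 < (FractionalIdeal.absNorm M : ℝ))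
    (hNx : ((|Algebra.norm ℚ x| : ℚ) : ℝ) = (N : ℝ) * (FractionalIdeal.absNorm M : ℝ)) :
    ∫ p, Q2 K M δ k ν t x p = ph ν x * (N : ℂ) ^ (-(t * I : ℂ)) * Uh K δ k ν t := by
  obtain ⟨z₀, hz₀⟩ := exists_log K x hx
  have hN0 : (0 : ℝ) < N := by exact_mod_cast hN
  have hlog : Real.log ((|Algebra.norm ℚ x| : ℚ) : ℝ) =
      Real.log N + Real.log (FractionalIdeal.absNorm M : ℝ) := by
    rw [hNx, Real.log_mul hN0.ne' hM.ne']
  set w : logSpace K × ℝ := (z₀, Real.log N) with hw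
  have hpr : pr K ν z₀ = ∑ v, (v.mult : ℝ) * ν v * Real.log (v x) := by
    rw [(hPU K).2.1 ν hν (Real.log ((|Algebra.norm ℚ x| : ℚ) : ℝ)) z₀, Finset.sum_div]
    refine Finset.sum_congr rfl fun v _ => ?_
    rw [hz₀ v]
    ring
  have hph : ph ν x * ec K ν z₀ = 1 := by
    unfold ph ec
    rw [← hpr, ← Complex.exp_add]
    have : ((pr K ν z₀ : ℝ) : ℂ) * I + -((pr K ν z₀ : ℝ) : ℂ) * I = 0 := by ring
    rw [this, Complex.exp_zero]
  have hNt : (N : ℂ) ^ (-(t * I : ℂ)) * cexp (t * (Real.log N : ℝ) * I) = 1 := by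
    have hNc : (N : ℂ) ≠ 0 := by exact_mod_cast hN.ne'
    rw [Complex.cpow_def_of_ne_zero hNc, ← Complex.exp_add]
    have h1 : Complex.log (N : ℂ) = ((Real.log N : ℝ) : ℂ) := by
      rw [Complex.ofReal_log hN0.le]
      push_cast
      rfl
    rw [h1]
    have : ((Real.log N : ℝ) : ℂ) * -(t * I : ℂ) + (t : ℂ) * ((Real.log N : ℝ) : ℂ) * I = 0 := by
      ring
    rw [this, Complex.exp_zero]
  have hpt : ∀ p : logSpace K × ℝ, Q2 K M δ k ν t x p =
      (ph ν x * (N : ℂ) ^ (-(t * I : ℂ))) *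
        (fun p : logSpace K × ℝ => ct K ν t p * Ps K δ k 1 (yc K p.2 p.1)) (p + w) := by
    intro p
    have h1 : (fun v => yM K M p.2 p.1 v + 2 * Real.log (v x)) = yc K (p + w).2 (p + w).1 := by
      funext v
      rw [← hz₀ v]
      unfold yM
      rw [← yc_add, hlog]
      congr 1
      rw [hw]
      change p.2 - Real.log (FractionalIdeal.absNorm M : ℝ) +
        (Real.log N + Real.log (FractionalIdeal.absNorm M : ℝ)) = p.2 + Real.log N
      ring
    have h2 : ct K ν t (p + w) = ct K ν t p * (ec K ν z₀ * cexp (t * (Real.log N : ℝ) * I)) := by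
      unfold ct
      change ec K ν (p.1 + z₀) * cexp (t * ((p.2 + Real.log N : ℝ) : ℂ) * I) = _
      have h3 : (t : ℂ) * ((p.2 + Real.log N : ℝ) : ℂ) * I =
          (t : ℂ) * p.2 * I + (t : ℂ) * ((Real.log N : ℝ) : ℂ) * I := by
        push_cast
        ring
      rw [ec_add, h3, Complex.exp_add]
      ring
    simp only
    rw [h2]
    unfold Q2
    rw [h1]
    have h4 : (ph ν x * (N : ℂ) ^ (-(t * I : ℂ))) *
        (ec K ν z₀ * cexp (t * (Real.log N : ℝ) * I)) = 1 := by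
      calc (ph ν x * (N : ℂ) ^ (-(t * I : ℂ))) *
        (ec K ν z₀ * cexp (t * (Real.log N : ℝ) * I)) = (ph ν x * ec K ν z₀) *
          ((N : ℂ) ^ (-(t * I : ℂ)) * cexp (t * (Real.log N : ℝ) * I)) := by ring
        _ = 1 := by rw [hph, hNt, one_mul]
    calc ct K ν t p * Ps K δ k 1 (yc K (p + w).2 (p + w).1) =
        ((ph ν x * (N : ℂ) ^ (-(t * I : ℂ))) *
        (ec K ν z₀ * cexp (t * (Real.log N : ℝ) * I))) *
          (ct K ν t p * Ps K δ k 1 (yc K (p + w).2 (p + w).1)) := by rw [h4, one_mul]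
      _ = _ := by ring
  have := vol_haar K
  rw [integral_congr_ae (ae_of_all _ hpt), integral_const_mul,
    integral_add_right_eq_self (fun p : logSpace K × ℝ => ct K ν t p * Ps K δ k 1 (yc K p.2 p.1)) w]
  rfl

end

end Pool.Agent.H61.GLB
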